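import Mathlib

set_option autoImplicit false

open Filter Topology Set

namespace Pool.Agent.Work.MP_bb898f_an

/-- The Gauss map: `G(x) = 1/x - ⌊1/x⌋` for `x ≠ 0` and `G(0) = 0`. -/
noncomputable def gauss (x : ℝ) : ℝ := if x = 0 then 0 else 1 / x - ⌊1 / x⌋

/-- The asymptotic set of `x` for the Gauss map:
all `y ∈ [0,1)` with `|G^n(x) - G^n(y)| → 0`. -/
def asympSet (x : ℝ) : Set ℝ :=
  {y | y ∈ Ico (0 : ℝ) 1 ∧ Tendsto (fun n : ℕ => |gauss^[n] x - gauss^[n] y|) atTop (𝓝 0)}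

end Pool.Agent.Work.MP_bb898f_an
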