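import Mathlib
import Pool.Agent.Work.MP_bb898f_an.Defs

set_option autoImplicit false

open MeasureTheory Filter Topology Set
open scoped ENNReal NNReal

namespace Pool.Agent.Work.MP_bb898f_an

/-- Covers with arbitrarily small `d`-sums give zero Hausdorff measure. -/
lemma hausdorffMeasure_zero_of_covers {X : Type*} [EMetricSpace X] [MeasurableSpace X]
    [BorelSpace X] {d : ℝ} (hd : 0 < d) (E : Set X)
    (h : ∀ ε : ℝ≥0∞, 0 < ε → ∃ (ι : Type) (_ : Countable ι) (t : ι → Set X),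
      E ⊆ ⋃ i, t i ∧ ∑' i, Metric.ediam (t i) ^ d ≤ ε) : Measure.hausdorffMeasure d E = 0 := by
  have h' : ∀ n : ℕ, ∃ (ι : Type) (_ : Countable ι) (t : ι → Set X),
      E ⊆ ⋃ i, t i ∧ ∑' i, Metric.ediam (t i) ^ d ≤ ((n : ℝ≥0∞) + 1)⁻¹ := by
    intro n
    apply h
    simp
  choose ι hι t ht hsum using h'
  have hlim : Tendsto (fun n : ℕ => ((n : ℝ≥0∞) + 1)⁻¹) atTop (𝓝 0) := by
    have := (ENNReal.tendsto_inv_nat_nhds_zero).comp (tendsto_add_atTop_nat 1)
    refine this.congr ?_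
    intro n
    simp
  have key := Measure.hausdorffMeasure_le_liminf_tsum (X := X) (β := ℕ) (ι := ι) d E (l := atTop)
    (fun n => (((n : ℝ≥0∞) + 1)⁻¹) ^ (1 / d)) ?_ t ?_ ?_
  · refine le_antisymm (key.trans ?_) zero_le
    calc liminf (fun n => ∑' i, Metric.ediam (t n i) ^ d) atTop 
        ≤ liminf (fun n : ℕ => ((n : ℝ≥0∞) + 1)⁻¹) atTop := 
          liminf_le_liminf (Eventually.of_forall hsum)
      _ = 0 := hlim.liminf_eq
      _ ≤ 0 := le_rfl
  · have := (ENNReal.continuous_rpow_const (y := 1 / d)).tendsto 0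
    rw [ENNReal.zero_rpow_of_pos (by positivity)] at this
    exact this.comp hlim
  · refine Eventually.of_forall fun n i => ?_
    have h1 : Metric.ediam (t n i) ^ d ≤ ((n : ℝ≥0∞) + 1)⁻¹ := 
      (ENNReal.le_tsum i).trans (hsum n)
    have h2 := ENNReal.rpow_le_rpow h1 (z := 1 / d) (by positivity)
    rwa [← ENNReal.rpow_mul, mul_one_div_cancel hd.ne', ENNReal.rpow_one] at h2
  · exact Eventually.of_forall ht

/-- A Borel-Cantelli lemma for Hausdorff measures. -/
lemma hausdorffMeasure_limsup_zero {X : Type*} [EMetricSpace X] [MeasurableSpace X]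
    [BorelSpace X] {d : ℝ} (hd : 0 < d) {J : Type} [Countable J] (t : J → Set X)
    (hsum : ∑' j, Metric.ediam (t j) ^ d ≠ ∞) (E : Set X)
    (hE : ∀ x ∈ E, {j | x ∈ t j}.Infinite) : Measure.hausdorffMeasure d E = 0 := by
  apply hausdorffMeasure_zero_of_covers hd
  intro ε hε
  have h1 := ENNReal.tendsto_tsum_compl_atTop_zero hsum
  obtain ⟨F, hF⟩ := ((tendsto_order.1 h1).2 ε hε).exists
  refine ⟨{j // j ∉ F}, inferInstance, fun j => t j, ?_, hF.le⟩
  intro x hx
  obtain ⟨j, hj, hjF⟩ := (hE x hx).exists_notMem_finset F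
  exact mem_iUnion.2 ⟨⟨j, hjF⟩, hj⟩

/-- Sum over words of a product. -/
lemma tsum_words_prod (n : ℕ) (φ : Fin n → ℕ → ℝ≥0∞) :
    ∑' w : Fin n → ℕ, ∏ i, φ i (w i) = ∏ i, ∑' b, φ i b := by
  induction n with
  | zero => simp
  | succ n ih =>
    rw [Fin.prod_univ_succ, ← ih (fun i => φ i.succ)]
    rw [← (Fin.consEquiv (fun _ : Fin (n + 1) => ℕ)).tsum_eq]
    have h1 : ∀ c : ℕ × (Fin n → ℕ),
        ∏ i, φ i ((Fin.consEquiv fun _ : Fin (n + 1) => ℕ) c i) =
        φ 0 c.1 * ∏ i : Fin n, φ i.succ (c.2 i) := by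
      intro c
      simp [Fin.consEquiv, Fin.prod_univ_succ]
    simp_rw [h1]
    rw [ENNReal.tsum_prod (f := fun a (b : Fin n → ℕ) => φ 0 a * ∏ i : Fin n, φ i.succ (b i))]
    simp_rw [ENNReal.tsum_mul_left, ENNReal.tsum_mul_right]

/-! ### Elementary facts on the Gauss map -/

lemma gauss_nonneg (x : ℝ) : 0 ≤ gauss x := by
  unfold gauss
  split_ifs
  · exact le_rfl
  · have := Int.floor_le (1 / x)
    linarith

lemma gauss_lt_one (x : ℝ) : gauss x < 1 := by
  unfold gauss
  split_ifs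
  · exact one_pos
  · have := Int.lt_floor_add_one (1 / x)
    linarith

lemma gauss_iter_mem {x : ℝ} (hx : x ∈ Ico (0 : ℝ) 1) (n : ℕ) :
    gauss^[n] x ∈ Ico (0 : ℝ) 1 := by
  cases n with
  | zero => simpa using hx
  | succ n =>
    rw [Function.iterate_succ_apply']
    exact ⟨gauss_nonneg _, gauss_lt_one _⟩

/-- The first continued fraction digit. -/
noncomputable def dig (x : ℝ) : ℕ := ⌊1 / x⌋₊

lemma one_div_eq {x : ℝ} (hx : 0 < x) : 1 / x = dig x + gauss x := by
  unfold gauss dig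
  rw [if_neg hx.ne', natCast_floor_eq_intCast_floor (by positivity)]
  ring

lemma one_le_dig {x : ℝ} (hx : 0 < x) (hx1 : x < 1) : 1 ≤ dig x := by
  unfold dig
  apply Nat.le_floor
  rw [Nat.cast_one, le_div_iff₀ hx]
  linarith

lemma le_inv_dig {x : ℝ} (hx : 0 < x) (hx1 : x < 1) : x ≤ 1 / (dig x : ℝ) := by
  have h1 := one_div_eq hx
  have h2 := gauss_nonneg x
  have h3 : (1 : ℝ) ≤ dig x := by exact_mod_cast one_le_dig hx hx1
  rw [le_div_iff₀ (by linarith)]
  have : (dig x : ℝ) ≤ 1 / x := by linarith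
  rw [le_div_iff₀ hx] at this
  linarith

lemma mul_add_gauss {x : ℝ} (hx : 0 < x) : x * (dig x + gauss x) = 1 := by
  rw [← one_div_eq hx]
  field_simp

lemma diff_formula {u v : ℝ} (hu : 0 < u) (hv : 0 < v) (h : dig u = dig v) :
    |u - v| = u * v * |gauss u - gauss v| := by
  have h1 := mul_add_gauss hu
  have h2 := mul_add_gauss hv
  have h3 : u - v = u * v * (gauss v - gauss u) := by
    rw [h] at h1
    linear_combination v * h1 - u * h2
  rw [h3, abs_mul, abs_of_pos (mul_pos hu hv), abs_sub_comm]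

lemma diff_iter {y y' : ℝ} (n : ℕ) (hy : ∀ i < n, 0 < gauss^[i] y)
    (hy' : ∀ i < n, 0 < gauss^[i] y')
    (h : ∀ i < n, dig (gauss^[i] y) = dig (gauss^[i] y')) :
    |y - y'| = (∏ i ∈ Finset.range n, (gauss^[i] y * gauss^[i] y')) *
      |gauss^[n] y - gauss^[n] y'| := by
  induction n with
  | zero => simp
  | succ n ih =>
    rw [ih (fun i hi => hy i (by omega)) (fun i hi => hy' i (by omega))
      (fun i hi => h i (by omega)), Finset.prod_range_succ,
      diff_formula (hy n (by omega)) (hy' n (by omega)) (h n (by omega)),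
      Function.iterate_succ_apply', Function.iterate_succ_apply']
    ring

lemma mul_gauss_lt_half {u : ℝ} (hu : 0 < u) (hu1 : u < 1) : u * gauss u < 1 / 2 := by
  have h1 := mul_add_gauss hu
  have h2 := gauss_lt_one u
  have h3 : (1 : ℝ) ≤ dig u := by exact_mod_cast one_le_dig hu hu1
  have h4 := gauss_nonneg u
  nlinarith

lemma diff_bound {y y' : ℝ} (hy1 : y ∈ Ico (0 : ℝ) 1) (hy1' : y' ∈ Ico (0 : ℝ) 1)
    (hy : ∀ i, 0 < gauss^[i] y) (hy' : ∀ i, 0 < gauss^[i] y')
    (h : ∀ i, dig (gauss^[i] y) = dig (gauss^[i] y')) (n : ℕ) :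
    |y - y'| ≤ (1 / 4) ^ n * |gauss^[2 * n] y - gauss^[2 * n] y'| := by
  induction n with
  | zero => simp
  | succ n ih =>
    refine ih.trans ?_
    have e1 := diff_formula (hy (2 * n)) (hy' (2 * n)) (h (2 * n))
    have e2 := diff_formula (hy (2 * n + 1)) (hy' (2 * n + 1)) (h (2 * n + 1))
    rw [Function.iterate_succ_apply', Function.iterate_succ_apply'] at e2
    rw [e1, e2, show 2 * (n + 1) = 2 * n + 1 + 1 by ring, Function.iterate_succ_apply',
      Function.iterate_succ_apply', Function.iterate_succ_apply', Function.iterate_succ_apply']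
    have f1 := mul_gauss_lt_half (hy (2 * n)) (gauss_iter_mem hy1 _).2
    have f2 := mul_gauss_lt_half (hy' (2 * n)) (gauss_iter_mem hy1' _).2
    have g1 := hy (2 * n)
    have g2 := hy' (2 * n)
    have k1 := hy (2 * n + 1)
    have k2 := hy' (2 * n + 1)
    rw [Function.iterate_succ_apply'] at k1 k2
    set u := gauss^[2 * n] y
    set v := gauss^[2 * n] y'
    have f3 : (u * gauss u) * (v * gauss v) ≤ (1 / 2) * (1 / 2) :=
      mul_le_mul f1.le f2.le (by positivity) (by norm_num)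
    have f4 : 0 ≤ |gauss (gauss u) - gauss (gauss v)| := abs_nonneg _
    have f5 : (0 : ℝ) < (1 / 4) ^ n := by positivity
    calc (1 / 4) ^ n * (u * v * (gauss u * gauss v * |gauss (gauss u) - gauss (gauss v)|))
        = ((1 / 4) ^ n * |gauss (gauss u) - gauss (gauss v)|) *
            ((u * gauss u) * (v * gauss v)) := by ring
      _ ≤ ((1 / 4) ^ n * |gauss (gauss u) - gauss (gauss v)|) * ((1 / 2) * (1 / 2)) := by
          apply mul_le_mul_of_nonneg_left f3 (by positivity)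
      _ = (1 / 4) ^ (n + 1) * |gauss (gauss u) - gauss (gauss v)| := by ring

lemma eq_of_dig_eq {y y' : ℝ} (hy1 : y ∈ Ico (0 : ℝ) 1) (hy1' : y' ∈ Ico (0 : ℝ) 1)
    (hy : ∀ i, 0 < gauss^[i] y) (hy' : ∀ i, 0 < gauss^[i] y')
    (h : ∀ i, dig (gauss^[i] y) = dig (gauss^[i] y')) : y = y' := by
  have h1 : ∀ n : ℕ, |y - y'| ≤ (1 / 4) ^ n := by
    intro n
    refine (diff_bound hy1 hy1' hy hy' h n).trans ?_
    have a := gauss_iter_mem hy1 (2 * n)
    have b := gauss_iter_mem hy1' (2 * n)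
    have : |gauss^[2 * n] y - gauss^[2 * n] y'| ≤ 1 := by
      rw [abs_le]
      constructor <;> linarith [a.1, a.2, b.1, b.2]
    calc _ ≤ (1 / 4 : ℝ) ^ n * 1 := by gcongr
      _ = _ := by ring
  have h2 : Tendsto (fun n : ℕ => (1 / 4 : ℝ) ^ n) atTop (𝓝 0) :=
    tendsto_pow_atTop_nhds_zero_of_lt_one (by norm_num) (by norm_num)
  have h3 : |y - y'| ≤ 0 := ge_of_tendsto' h2 h1
  have h4 : |y - y'| = 0 := le_antisymm h3 (abs_nonneg _)
  linarith [abs_eq_zero.1 h4]

lemma rat_of_gauss_rat {y : ℝ} (h : gauss y ∈ range ((↑) : ℚ → ℝ)) :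
    y ∈ range ((↑) : ℚ → ℝ) := by
  by_cases hy : y = 0
  · exact ⟨0, by simp [hy]⟩
  · obtain ⟨q, hq⟩ := h
    refine ⟨1 / (⌊1 / y⌋ + q), ?_⟩
    have : gauss y = 1 / y - ⌊1 / y⌋ := by simp [gauss, hy]
    push_cast
    rw [hq, this]
    field_simp
    ring

lemma countable_terminating : {y : ℝ | ∃ n, gauss^[n] y = 0}.Countable := by
  apply (countable_range ((↑) : ℚ → ℝ)).mono
  rintro y ⟨n, hn⟩
  induction n generalizing y with
  | zero => exact ⟨0, by simpa using hn.symm⟩
  | succ n ih =>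
    rw [Function.iterate_succ_apply] at hn
    exact rat_of_gauss_rat (ih hn)

/-- Digits agree eventually where the orbit of `x` is not small. -/
lemma eventually_dig_eq {x y : ℝ}
    (h : Tendsto (fun n : ℕ => |gauss^[n] x - gauss^[n] y|) atTop (𝓝 0)) {K : ℝ}
    (hK : 1 ≤ K) : ∀ᶠ n in atTop, 1 / K < gauss^[n] x →
      0 < gauss^[n] y ∧ dig (gauss^[n] y) = dig (gauss^[n] x) := by
  have hδ : (0 : ℝ) < 1 / (4 * K ^ 2) := by positivity
  have e1 := (tendsto_order.1 h).2 _ hδ
  have e2 := (tendsto_add_atTop_nat 1).eventually e1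
  filter_upwards [e1, e2] with n h1 h2 h3
  rw [Function.iterate_succ_apply', Function.iterate_succ_apply'] at h2
  set u := gauss^[n] x
  set v := gauss^[n] y
  have hu : 0 < u := lt_trans (by positivity) h3
  rw [abs_lt] at h1 h2
  have h4 : 1 / (4 * K ^ 2) ≤ 1 / (4 * K) := by
    apply one_div_le_one_div_of_le (by positivity)
    nlinarith
  have h5 : 1 / (4 * K ^ 2) ≤ 1 / 4 := by
    apply one_div_le_one_div_of_le (by positivity)
    nlinarith
  have h6 : 1 / (4 * K) = 1 / K / 4 := by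
    field_simp
  have hK' : 0 < 1 / K := by positivity
  have hv' : 1 / (2 * K) < v := by
    have : 1 / (2 * K) = 1 / K / 2 := by field_simp
    rw [this]
    linarith
  have hv : 0 < v := lt_trans (by positivity) hv'
  refine ⟨hv, ?_⟩
  have a1 := one_div_eq hu
  have a2 := one_div_eq hv
  have a3 : |1 / u - 1 / v| < 1 / 2 := by
    have : 1 / u - 1 / v = (v - u) / (u * v) := by field_simp
    rw [this, abs_div, abs_of_pos (mul_pos hu hv), div_lt_iff₀ (mul_pos hu hv)]
    have b1 : 1 / (2 * K ^ 2) < u * v := by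
      calc 1 / (2 * K ^ 2) = (1 / K) * (1 / (2 * K)) := by field_simp
        _ < u * v := by
          apply mul_lt_mul'' h3 hv' (by positivity) (by positivity)
    have b2 : |v - u| < 1 / (4 * K ^ 2) := by
      rw [abs_lt]; constructor <;> linarith
    have b3 : 1 / (4 * K ^ 2) = 1 / 2 * (1 / (2 * K ^ 2)) := by field_simp; norm_num
    rw [b3] at b2
    linarith
  rw [abs_lt] at a3
  have a4 : ((dig v : ℤ) : ℝ) - (dig u : ℤ) < 1 := by
    push_cast; linarith
  have a5 : ((dig u : ℤ) : ℝ) - (dig v : ℤ) < 1 := by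
    push_cast; linarith
  have a6 : (dig v : ℤ) - (dig u : ℤ) < 1 := by exact_mod_cast a4
  have a7 : (dig u : ℤ) - (dig v : ℤ) < 1 := by exact_mod_cast a5
  omega

/-- Digits of `y` are large where the orbit of `x` is small. -/
lemma eventually_dig_large {x y : ℝ}
    (h : Tendsto (fun n : ℕ => |gauss^[n] x - gauss^[n] y|) atTop (𝓝 0)) {K : ℕ}
    (hK : 1 ≤ K) : ∀ᶠ n in atTop, gauss^[n] x ≤ 1 / ((K : ℝ) + 1) →
      0 < gauss^[n] y → K ≤ dig (gauss^[n] y) := by
  have hδ : (0 : ℝ) < 1 / K - 1 / (K + 1) := by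
    have : (0 : ℝ) < K := by exact_mod_cast hK
    rw [sub_pos]
    apply one_div_lt_one_div_of_lt this
    linarith
  have e1 := (tendsto_order.1 h).2 _ hδ
  filter_upwards [e1] with n h1 h2 h3
  rw [abs_lt] at h1
  unfold dig
  apply Nat.le_floor
  rw [le_div_iff₀ h3]
  have : gauss^[n] y < 1 / K := by linarith
  rw [lt_div_iff₀ (by exact_mod_cast hK)] at this
  linarith

end Pool.Agent.Work.MP_bb898f_an
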