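import Mathlib
import Pool.Agent.Work.MP_bb898f_an.Basic

set_option autoImplicit false

open MeasureTheory Filter Topology Set
open scoped ENNReal NNReal

namespace Pool.Agent.Work.MP_bb898f_an

/-- Truncated continued fractions. -/
noncomputable def trunc : ℕ → (ℕ → ℕ) → ℝ
  | 0, _ => 0
  | n + 1, b => 1 / ((b 0 : ℝ) + trunc n (fun i => b (i + 1)))

lemma trunc_mem (n : ℕ) : ∀ b : ℕ → ℕ, (∀ i, 2 ≤ b i) → trunc n b ∈ Icc (0 : ℝ) (1 / 2) := by
  induction n with
  | zero => intro b _; simp [trunc]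
  | succ n ih =>
    intro b hb
    have h := ih (fun i => b (i + 1)) (fun i => hb (i + 1))
    have h2 : (2 : ℝ) ≤ b 0 := by exact_mod_cast hb 0
    unfold trunc
    constructor
    · have := h.1
      positivity
    · apply one_div_le_one_div_of_le (by norm_num)
      linarith [h.1]

lemma abs_inv_sub_inv_le {B u v : ℝ} (hB : 2 ≤ B) (hu : 0 ≤ u) (hv : 0 ≤ v) :
    |1 / (B + u) - 1 / (B + v)| ≤ (1 / 4) * |u - v| := by
  have h1 : 0 < B + u := by linarith
  have h2 : 0 < B + v := by linarith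
  have h3 : 1 / (B + u) - 1 / (B + v) = (v - u) / ((B + u) * (B + v)) := by
    field_simp
    ring
  rw [h3, abs_div, abs_of_pos (mul_pos h1 h2), div_le_iff₀ (mul_pos h1 h2), abs_sub_comm v u]
  have h4 : 4 ≤ (B + u) * (B + v) := by nlinarith
  have h5 := abs_nonneg (u - v)
  nlinarith

lemma trunc_dist (n : ℕ) : ∀ b : ℕ → ℕ, (∀ i, 2 ≤ b i) →
    dist (trunc n b) (trunc (n + 1) b) ≤ 1 * (1 / 4) ^ n := by
  induction n with
  | zero =>
    intro b hb
    have h := trunc_mem 1 b hb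
    rw [Real.dist_eq]
    simp only [trunc] at h ⊢
    rw [abs_le]
    constructor <;> linarith [h.1, h.2]
  | succ n ih =>
    intro b hb
    have h := ih (fun i => b (i + 1)) (fun i => hb (i + 1))
    have e1 := trunc_mem n (fun i => b (i + 1)) (fun i => hb (i + 1))
    have e2 := trunc_mem (n + 1) (fun i => b (i + 1)) (fun i => hb (i + 1))
    have h2 : (2 : ℝ) ≤ b 0 := by exact_mod_cast hb 0
    rw [Real.dist_eq] at h ⊢
    have h3 := abs_inv_sub_inv_le h2 e1.1 e2.1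
    calc |trunc (n + 1) b - trunc (n + 1 + 1) b|
        = |1 / ((b 0 : ℝ) + trunc n (fun i => b (i + 1))) -
            1 / ((b 0 : ℝ) + trunc (n + 1) (fun i => b (i + 1)))| := rfl
      _ ≤ _ := h3
      _ ≤ (1 / 4) * (1 * (1 / 4) ^ n) := by gcongr
      _ = 1 * (1 / 4) ^ (n + 1) := by ring

/-- The real number in `[0,1/2]` with continued fraction digits `b`. -/
noncomputable def cod (b : ℕ → ℕ) : ℝ := limUnder atTop (fun n => trunc n b)

lemma tendsto_cod {b : ℕ → ℕ} (hb : ∀ i, 2 ≤ b i) :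
    Tendsto (fun n => trunc n b) atTop (𝓝 (cod b)) := by
  apply CauchySeq.tendsto_limUnder
  exact cauchySeq_of_le_geometric (1 / 4) 1 (by norm_num) (fun n => trunc_dist n b hb)

lemma cod_mem {b : ℕ → ℕ} (hb : ∀ i, 2 ≤ b i) : cod b ∈ Icc (0 : ℝ) (1 / 2) :=
  isClosed_Icc.mem_of_tendsto (tendsto_cod hb) (Eventually.of_forall fun n => trunc_mem n b hb)

lemma cod_eq {b : ℕ → ℕ} (hb : ∀ i, 2 ≤ b i) :
    cod b = 1 / ((b 0 : ℝ) + cod (fun i => b (i + 1))) := by
  have h2 : (2 : ℝ) ≤ b 0 := by exact_mod_cast hb 0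
  have hb' : ∀ i, 2 ≤ (fun i => b (i + 1)) i := fun i => hb (i + 1)
  have h1 := (tendsto_add_atTop_iff_nat 1).2 (tendsto_cod hb)
  have h3 : Tendsto (fun n => 1 / ((b 0 : ℝ) + trunc n (fun i => b (i + 1)))) atTop
      (𝓝 (1 / ((b 0 : ℝ) + cod (fun i => b (i + 1))))) := by
    apply Tendsto.div tendsto_const_nhds (tendsto_const_nhds.add (tendsto_cod hb'))
    have := (cod_mem hb').1
    linarith
  exact tendsto_nhds_unique h1 h3

lemma cod_pos {b : ℕ → ℕ} (hb : ∀ i, 2 ≤ b i) : 0 < cod b := by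
  rw [cod_eq hb]
  have h2 : (2 : ℝ) ≤ b 0 := by exact_mod_cast hb 0
  have := (cod_mem (b := fun i => b (i + 1)) (fun i => hb (i + 1))).1
  positivity

lemma one_div_cod {b : ℕ → ℕ} (hb : ∀ i, 2 ≤ b i) :
    1 / cod b = (b 0 : ℝ) + cod (fun i => b (i + 1)) := by
  rw [cod_eq hb, one_div_one_div]

lemma floor_one_div_cod {b : ℕ → ℕ} (hb : ∀ i, 2 ≤ b i) : ⌊1 / cod b⌋ = (b 0 : ℤ) := by
  rw [one_div_cod hb, Int.floor_eq_iff]
  have := cod_mem (b := fun i => b (i + 1)) (fun i => hb (i + 1))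
  constructor
  · push_cast; linarith [this.1]
  · push_cast; linarith [this.2]

lemma gauss_cod {b : ℕ → ℕ} (hb : ∀ i, 2 ≤ b i) : gauss (cod b) = cod (fun i => b (i + 1)) := by
  unfold gauss
  rw [if_neg (cod_pos hb).ne', floor_one_div_cod hb, one_div_cod hb]
  push_cast
  ring

lemma dig_cod {b : ℕ → ℕ} (hb : ∀ i, 2 ≤ b i) : dig (cod b) = b 0 := by
  have h1 := one_div_eq (cod_pos hb)
  rw [gauss_cod hb, one_div_cod hb] at h1
  have : (b 0 : ℝ) = dig (cod b) := by linarith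
  exact_mod_cast this.symm

lemma gauss_iter_cod {b : ℕ → ℕ} (hb : ∀ i, 2 ≤ b i) (n : ℕ) :
    gauss^[n] (cod b) = cod (fun i => b (i + n)) := by
  induction n with
  | zero => simp
  | succ n ih =>
    rw [Function.iterate_succ_apply', ih, gauss_cod (fun i => hb (i + n))]
    congr 1
    ext i
    congr 1
    ring

lemma cod_mem_Ico {b : ℕ → ℕ} (hb : ∀ i, 2 ≤ b i) : cod b ∈ Ico (0 : ℝ) 1 := by
  have := cod_mem hb
  exact ⟨this.1, by linarith [this.2]⟩

lemma cod_le {b : ℕ → ℕ} (hb : ∀ i, 2 ≤ b i) : cod b ≤ 1 / (b 0 : ℝ) := by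
  rw [cod_eq hb]
  have h2 : (2 : ℝ) ≤ b 0 := by exact_mod_cast hb 0
  have := (cod_mem (b := fun i => b (i + 1)) (fun i => hb (i + 1))).1
  apply one_div_le_one_div_of_le <;> linarith

lemma le_cod {b : ℕ → ℕ} (hb : ∀ i, 2 ≤ b i) : 1 / ((b 0 : ℝ) + 1) ≤ cod b := by
  rw [cod_eq hb]
  have h2 : (2 : ℝ) ≤ b 0 := by exact_mod_cast hb 0
  have h := (cod_mem (b := fun i => b (i + 1)) (fun i => hb (i + 1)))
  apply one_div_le_one_div_of_le <;> linarith [h.1, h.2]

lemma cod_close {K : ℝ} (hK : 0 < K) (m : ℕ) : ∀ a b : ℕ → ℕ, (∀ i, 2 ≤ a i) → (∀ i, 2 ≤ b i) →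
    (∀ i, a i = b i ∨ (K ≤ a i ∧ K ≤ b i)) → |cod a - cod b| ≤ max (1 / K) ((1 / 4) ^ m) := by
  induction m with
  | zero =>
    intro a b ha hb _
    have h1 := cod_mem ha
    have h2 := cod_mem hb
    apply le_max_of_le_right
    rw [abs_le, pow_zero]
    constructor <;> linarith [h1.1, h1.2, h2.1, h2.2]
  | succ m ih =>
    intro a b ha hb hab
    rcases hab 0 with h | ⟨h1, h2⟩
    · have h3 := ih (fun i => a (i + 1)) (fun i => b (i + 1)) (fun i => ha _) (fun i => hb _)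
        (fun i => hab _)
      rw [cod_eq ha, cod_eq hb, h]
      have h2 : (2 : ℝ) ≤ b 0 := by exact_mod_cast hb 0
      have e1 := (cod_mem (b := fun i => a (i + 1)) (fun i => ha _)).1
      have e2 := (cod_mem (b := fun i => b (i + 1)) (fun i => hb _)).1
      refine (abs_inv_sub_inv_le h2 e1 e2).trans ?_
      rcases le_max_iff.1 h3 with h4 | h4
      · apply le_max_of_le_left
        have := abs_nonneg (cod (fun i => a (i + 1)) - cod (fun i => b (i + 1)))
        linarith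
      · apply le_max_of_le_right
        rw [pow_succ]
        linarith
    · apply le_max_of_le_left
      have f1 := cod_le ha
      have f2 := cod_le hb
      have g1 : 1 / (a 0 : ℝ) ≤ 1 / K := one_div_le_one_div_of_le hK h1
      have g2 : 1 / (b 0 : ℝ) ≤ 1 / K := one_div_le_one_div_of_le hK h2
      have k1 := (cod_mem ha).1
      have k2 := (cod_mem hb).1
      rw [abs_le]
      constructor <;> linarith

lemma cod_close' {K : ℝ} (hK : 0 < K) (a b : ℕ → ℕ) (ha : ∀ i, 2 ≤ a i) (hb : ∀ i, 2 ≤ b i)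
    (h : ∀ i, a i = b i ∨ (K ≤ a i ∧ K ≤ b i)) : |cod a - cod b| ≤ 1 / K := by
  obtain ⟨m, hm⟩ := exists_pow_lt_of_lt_one (show 0 < 1 / K by positivity)
    (show (1 / 4 : ℝ) < 1 by norm_num)
  exact (cod_close hK m a b ha hb h).trans (max_le le_rfl hm.le)

lemma cod_mem_asympSet (a b : ℕ → ℕ) (ha : ∀ i, 2 ≤ a i) (hb : ∀ i, 2 ≤ b i)
    (h : ∀ K : ℕ, ∀ᶠ n in atTop, a n = b n ∨ (K ≤ a n ∧ K ≤ b n)) :
    cod b ∈ asympSet (cod a) := by
  refine ⟨cod_mem_Ico hb, ?_⟩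
  rw [Metric.tendsto_atTop]
  intro ε hε
  obtain ⟨K, hK⟩ := exists_nat_gt (1 / ε)
  have hK0 : (0 : ℝ) < K := lt_trans (by positivity) hK
  obtain ⟨N, hN⟩ := eventually_atTop.1 (h K)
  refine ⟨N, fun n hn => ?_⟩
  rw [gauss_iter_cod ha, gauss_iter_cod hb, Real.dist_eq, sub_zero, abs_abs]
  refine lt_of_le_of_lt (cod_close' hK0 _ _ (fun i => ha _) (fun i => hb _) ?_) ?_
  · intro i
    rcases hN (i + n) (by omega) with h1 | ⟨h1, h2⟩
    · exact Or.inl h1
    · exact Or.inr ⟨by exact_mod_cast h1, by exact_mod_cast h2⟩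
  · rw [div_lt_iff₀ hK0]
    rw [div_lt_iff₀ hε] at hK
    linarith

end Pool.Agent.Work.MP_bb898f_an
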