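import Mathlib
import Pool.Agent.Work.MP_bb898f_an.Coding

set_option autoImplicit false

open MeasureTheory Filter Topology Set
open scoped ENNReal NNReal

namespace Pool.Agent.Work.MP_bb898f_an

section Construction

variable (p : ℕ → ℕ) (c : ℕ)

/-- Alphabet sizes at the free positions. -/
def NN (k : ℕ) : ℕ := 2 ^ (c * (p (k + 1) - p k))

/-- Products of alphabet sizes. -/
def PP (k : ℕ) : ℕ := 2 ^ (c * (p k - p 0))

/-- The mixed radix digit of `t`. -/
noncomputable def dd (t : ℝ) (k : ℕ) : ℕ := ⌊(PP p c (k + 1) : ℝ) * t⌋₊ % NN p c k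

/-- The digit sequence attached to `t`. -/
noncomputable def seqOf (t : ℝ) : ℕ → ℕ :=
  Function.extend p (fun k => NN p c k + dd p c t k) (fun _ => 2)

variable {p c}

lemma PP_succ (hp : StrictMono p) (k : ℕ) : PP p c (k + 1) = PP p c k * NN p c k := by
  unfold PP NN
  rw [← pow_add, ← mul_add]
  congr 2
  have h1 := hp.monotone (Nat.zero_le k)
  have h2 := hp.monotone (Nat.le_succ k)
  simp only [Nat.succ_eq_add_one] at h2
  omega

lemma NN_pos (k : ℕ) : 0 < NN p c k := by unfold NN; positivity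

lemma PP_pos (k : ℕ) : 0 < PP p c k := by unfold PP; positivity

lemma two_le_NN (hp : StrictMono p) (hc : 1 ≤ c) (k : ℕ) : 2 ≤ NN p c k := by
  unfold NN
  have h : p k < p (k + 1) := hp (Nat.lt_succ_self k)
  have h2 : 1 ≤ c * (p (k + 1) - p k) := Nat.mul_pos hc (by omega)
  calc 2 = 2 ^ 1 := rfl
    _ ≤ _ := Nat.pow_le_pow_right (by norm_num) h2

lemma floor_PP_succ (hp : StrictMono p) (t : ℝ) (k : ℕ) :
    ⌊(PP p c (k + 1) : ℝ) * t⌋₊ = NN p c k * ⌊(PP p c k : ℝ) * t⌋₊ + dd p c t k := by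
  unfold dd
  have h1 : ⌊(PP p c k : ℝ) * t⌋₊ = ⌊(PP p c (k + 1) : ℝ) * t⌋₊ / NN p c k := by
    rw [← Nat.floor_div_natCast]
    congr 1
    have : (NN p c k : ℝ) ≠ 0 := by exact_mod_cast (NN_pos k).ne'
    rw [PP_succ hp]
    push_cast
    field_simp
  rw [h1]
  exact (Nat.div_add_mod _ _).symm

lemma dd_lt (t : ℝ) (k : ℕ) : dd p c t k < NN p c k := Nat.mod_lt _ (NN_pos k)

lemma seqOf_apply (hp : StrictMono p) (t : ℝ) (k : ℕ) :
    seqOf p c t (p k) = NN p c k + dd p c t k := by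
  unfold seqOf
  exact hp.injective.extend_apply _ _ _

lemma seqOf_apply' (t : ℝ) (n : ℕ) (hn : n ∉ range p) : seqOf p c t n = 2 := by
  unfold seqOf
  rw [Function.extend_apply']
  rintro ⟨k, hk⟩
  exact hn ⟨k, hk⟩

lemma two_le_seqOf (hp : StrictMono p) (hc : 1 ≤ c) (t : ℝ) (n : ℕ) : 2 ≤ seqOf p c t n := by
  by_cases hn : n ∈ range p
  · obtain ⟨k, rfl⟩ := hn
    rw [seqOf_apply hp]
    have := two_le_NN hp hc k
    omega
  · rw [seqOf_apply' t n hn]

/-- The first level at which `t` and `t'` are separated. -/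
lemma exists_first_level (hp : StrictMono p) (hc : 1 ≤ c) {t t' : ℝ} (ht : t ∈ Ico (0 : ℝ) 1)
    (ht' : t' ∈ Ico (0 : ℝ) 1) (hne : t ≠ t') :
    ∃ k : ℕ, (∀ j ≤ k, ⌊(PP p c j : ℝ) * t⌋₊ = ⌊(PP p c j : ℝ) * t'⌋₊) ∧
      ⌊(PP p c (k + 1) : ℝ) * t⌋₊ ≠ ⌊(PP p c (k + 1) : ℝ) * t'⌋₊ := by
  classical
  have hex : ∃ j : ℕ, ⌊(PP p c j : ℝ) * t⌋₊ ≠ ⌊(PP p c j : ℝ) * t'⌋₊ := by
    by_contra hcon
    push Not at hcon
    have hgrow : ∀ j : ℕ, (2 : ℝ) ^ j ≤ PP p c j := by
      intro j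
      induction j with
      | zero => simp [PP]
      | succ j ih =>
        rw [PP_succ hp, pow_succ]
        push_cast
        have : (2 : ℝ) ≤ NN p c j := by exact_mod_cast two_le_NN hp hc j
        gcongr
    have hpos : 0 < |t - t'| := abs_pos.2 (sub_ne_zero.2 hne)
    obtain ⟨j, hj⟩ := pow_unbounded_of_one_lt (1 / |t - t'|) (show (1 : ℝ) < 2 by norm_num)
    have h1 := hcon j
    have h2 : 1 < (PP p c j : ℝ) * |t - t'| := by
      have := lt_of_lt_of_le hj (hgrow j)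
      rwa [div_lt_iff₀ hpos] at this
    have a1 := Nat.floor_le (show 0 ≤ (PP p c j : ℝ) * t from mul_nonneg (Nat.cast_nonneg _) ht.1)
    have a2 := Nat.lt_floor_add_one ((PP p c j : ℝ) * t)
    have b1 := Nat.floor_le (show 0 ≤ (PP p c j : ℝ) * t' from mul_nonneg (Nat.cast_nonneg _) ht'.1)
    have b2 := Nat.lt_floor_add_one ((PP p c j : ℝ) * t')
    rw [h1] at a1 a2
    have h3 : |(PP p c j : ℝ) * t - (PP p c j : ℝ) * t'| < 1 := by
      rw [abs_lt]; constructor <;> linarith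
    rw [← mul_sub, abs_mul, abs_of_nonneg (Nat.cast_nonneg (α := ℝ) _)] at h3
    linarith
  have h0 : ⌊(PP p c 0 : ℝ) * t⌋₊ = ⌊(PP p c 0 : ℝ) * t'⌋₊ := by
    have e1 : ⌊(PP p c 0 : ℝ) * t⌋₊ = 0 := by
      rw [Nat.floor_eq_zero]; simp [PP, ht.2]
    have e2 : ⌊(PP p c 0 : ℝ) * t'⌋₊ = 0 := by
      rw [Nat.floor_eq_zero]; simp [PP, ht'.2]
    rw [e1, e2]
  have hfind := Nat.find_spec hex
  have hpos : Nat.find hex ≠ 0 := by
    intro h
    rw [h] at hfind
    exact hfind h0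
  obtain ⟨k, hk⟩ := Nat.exists_eq_succ_of_ne_zero hpos
  refine ⟨k, ?_, ?_⟩
  · intro j hj
    by_contra hcon
    have := Nat.find_min' hex hcon
    omega
  · rw [hk] at hfind
    exact hfind

/-- Lower bound for products along the orbit. -/
lemma prod_lower (hp : StrictMono p) (g : ℕ → ℝ)
    (hg : ∀ n, n ∉ range p → (1 / 2 : ℝ) ^ 4 ≤ g n)
    (hg' : ∀ k, (1 / 2 : ℝ) ^ (2 + 2 * (c * (p (k + 1) - p k))) ≤ g (p k)) (k : ℕ) :
    (1 / 2 : ℝ) ^ (4 * p k + 2 * k + 2 * (c * (p k - p 0))) ≤ ∏ i ∈ Finset.range (p k), g i := by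
  induction k with
  | zero =>
    simp only [mul_zero, add_zero, Nat.sub_self]
    rw [pow_mul]
    calc ((1 / 2 : ℝ) ^ 4) ^ (p 0) = ∏ i ∈ Finset.range (p 0), (1 / 2 : ℝ) ^ 4 := by
          rw [Finset.prod_const, Finset.card_range]
      _ ≤ _ := by
        apply Finset.prod_le_prod (fun _ _ => by positivity)
        intro i hi
        apply hg
        rintro ⟨j, rfl⟩
        have := hp.monotone (Nat.zero_le j)
        rw [Finset.mem_range] at hi
        omega
  | succ k ih =>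
    have hlt : p k < p (k + 1) := hp (Nat.lt_succ_self k)
    have h0 := hp.monotone (Nat.zero_le k)
    rw [← Finset.prod_range_mul_prod_Ico g hlt.le, Finset.prod_eq_prod_Ico_succ_bot hlt]
    have h1 : (1 / 2 : ℝ) ^ (4 * (p (k + 1) - (p k + 1))) ≤
        ∏ i ∈ Finset.Ico (p k + 1) (p (k + 1)), g i := by
      rw [pow_mul]
      calc ((1 / 2 : ℝ) ^ 4) ^ (p (k + 1) - (p k + 1))
          = ∏ i ∈ Finset.Ico (p k + 1) (p (k + 1)), (1 / 2 : ℝ) ^ 4 := by
            rw [Finset.prod_const, Nat.card_Ico]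
        _ ≤ _ := by
          apply Finset.prod_le_prod (fun _ _ => by positivity)
          intro i hi
          apply hg
          rintro ⟨j, rfl⟩
          rw [Finset.mem_Ico] at hi
          have a1 : p k < p j := by omega
          have a2 := hp.lt_iff_lt.1 a1
          have a3 := hp.lt_iff_lt.1 hi.2
          omega
    have h2 := hg' k
    have h3 : (1 / 2 : ℝ) ^ (4 * p (k + 1) + 2 * (k + 1) + 2 * (c * (p (k + 1) - p 0))) ≤
        (1 / 2 : ℝ) ^ (4 * p k + 2 * k + 2 * (c * (p k - p 0))) *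
        ((1 / 2 : ℝ) ^ (2 + 2 * (c * (p (k + 1) - p k))) *
          (1 / 2 : ℝ) ^ (4 * (p (k + 1) - (p k + 1)))) := by
      rw [← pow_add, ← pow_add]
      apply pow_le_pow_of_le_one (by norm_num) (by norm_num)
      obtain ⟨a, ha⟩ := Nat.exists_eq_add_of_le h0
      obtain ⟨b, hb⟩ := Nat.exists_eq_add_of_lt hlt
      rw [hb, ha]
      have e1 : p 0 + a - p 0 = a := by omega
      have e2 : p 0 + a + b + 1 - (p 0 + a) = b + 1 := by omega
      have e3 : p 0 + a + b + 1 - (p 0 + a + 1) = b := by omega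
      have e4 : p 0 + a + b + 1 - p 0 = a + b + 1 := by omega
      rw [e1, e2, e3, e4]
      ring_nf
      omega
    refine h3.trans ?_
    have k1 : (0 : ℝ) ≤ ∏ k ∈ Finset.range (p k), g k := le_trans (by positivity) ih
    have k2 : 0 ≤ g (p k) := le_trans (by positivity) h2
    gcongr

lemma seqOf_lower (hp : StrictMono p) (hc : 1 ≤ c) (t : ℝ) (k : ℕ) :
    (1 / 2 : ℝ) ^ (1 + c * (p (k + 1) - p k)) ≤ gauss^[p k] (cod (seqOf p c t)) := by
  have hb := two_le_seqOf hp hc t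
  rw [gauss_iter_cod hb]
  refine le_trans ?_ (le_cod (fun i => hb _))
  simp only [zero_add]
  rw [seqOf_apply hp]
  have h1 := dd_lt (p := p) (c := c) t k
  rw [one_div_pow]
  apply one_div_le_one_div_of_le (by positivity)
  have h2 : NN p c k + dd p c t k + 1 ≤ 2 * NN p c k := by omega
  have h3 : ((NN p c k + dd p c t k : ℕ) : ℝ) + 1 ≤ 2 * (NN p c k : ℝ) := by exact_mod_cast h2
  refine h3.trans ?_
  unfold NN
  push_cast
  rw [pow_add, pow_one]

lemma seqOf_lower' (hp : StrictMono p) (hc : 1 ≤ c) (t : ℝ) (n : ℕ) (hn : n ∉ range p) :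
    (1 / 3 : ℝ) ≤ gauss^[n] (cod (seqOf p c t)) := by
  have hb := two_le_seqOf hp hc t
  rw [gauss_iter_cod hb]
  refine le_trans ?_ (le_cod (fun i => hb _))
  simp only [zero_add]
  rw [seqOf_apply' t n hn]
  norm_num

/-- The main separation inequality. -/
lemma separation (hp : StrictMono p) (hc : 1 ≤ c) {t t' : ℝ} (ht : t ∈ Ico (0 : ℝ) 1)
    (ht' : t' ∈ Ico (0 : ℝ) 1) (hne : t ≠ t') :
    ∃ (k : ℕ) (ρ : ℝ), 0 < ρ ∧ ρ ≤ 1 ∧ |t - t'| ≤ 2 * ρ * (1 / 2 : ℝ) ^ (c * (p k - p 0)) ∧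
      ρ * (1 / 2 : ℝ) ^ (3 + 4 * p k + 2 * k + 2 * (c * (p k - p 0)) + c * (p (k + 1) - p k)) ≤
        |cod (seqOf p c t) - cod (seqOf p c t')| := by
  obtain ⟨k, hk1, hk2⟩ := exists_first_level hp hc ht ht' hne
  have hb := two_le_seqOf hp hc t
  have hb' := two_le_seqOf hp hc t'
  -- digits
  have hd : ∀ j < k, dd p c t j = dd p c t' j := by
    intro j hj
    have a1 := floor_PP_succ (c := c) hp t j
    have a2 := floor_PP_succ (c := c) hp t' j
    rw [hk1 (j + 1) (by omega), hk1 j (by omega)] at a1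
    omega
  have hfl := hk1 k le_rfl
  have a1 := floor_PP_succ (c := c) hp t k
  have a2 := floor_PP_succ (c := c) hp t' k
  rw [hfl] at a1
  have hdk : dd p c t k ≠ dd p c t' k := by
    intro h
    apply hk2
    rw [a1, a2, h]
  set d1 := dd p c t k with hd1
  set d2 := dd p c t' k with hd2
  set N : ℝ := (NN p c k : ℝ) with hN
  have hNpos : 0 < N := by rw [hN]; exact_mod_cast NN_pos k
  set e : ℝ := |(d1 : ℝ) - d2| with he
  have he1 : 1 ≤ e := by
    have h1 : (1 : ℤ) ≤ |(d1 : ℤ) - d2| := by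
      apply Int.one_le_abs
      omega
    have h2 : ((1 : ℤ) : ℝ) ≤ ((|(d1 : ℤ) - d2| : ℤ) : ℝ) := by exact_mod_cast h1
    rw [he]
    push_cast at h2
    exact h2
  have heN : e ≤ N := by
    have h1 : d1 < NN p c k := dd_lt t k
    have h2 : d2 < NN p c k := dd_lt t' k
    have h1' : (d1 : ℝ) < N := by rw [hN]; exact_mod_cast h1
    have h2' : (d2 : ℝ) < N := by rw [hN]; exact_mod_cast h2
    rw [he, abs_le]
    constructor <;> linarith [Nat.cast_nonneg (α := ℝ) d1, Nat.cast_nonneg (α := ℝ) d2]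
  refine ⟨k, e / N, by positivity, (div_le_one hNpos).2 heN, ?_, ?_⟩
  · -- upper bound for `|t - t'|`
    have hPpos : (0 : ℝ) < PP p c (k + 1) := by exact_mod_cast PP_pos (k + 1)
    have f1 := Nat.floor_le (show 0 ≤ (PP p c (k + 1) : ℝ) * t from
      mul_nonneg (Nat.cast_nonneg _) ht.1)
    have f2 := Nat.lt_floor_add_one ((PP p c (k + 1) : ℝ) * t)
    have g1 := Nat.floor_le (show 0 ≤ (PP p c (k + 1) : ℝ) * t' from
      mul_nonneg (Nat.cast_nonneg _) ht'.1)
    have g2 := Nat.lt_floor_add_one ((PP p c (k + 1) : ℝ) * t')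
    rw [a1] at f1 f2
    rw [a2] at g1 g2
    push_cast at f1 f2 g1 g2
    have h1 : |(PP p c (k + 1) : ℝ) * t - (PP p c (k + 1) : ℝ) * t'| ≤ e + 1 := by
      have h2 := le_abs_self ((d1 : ℝ) - d2)
      have h3 := neg_abs_le ((d1 : ℝ) - d2)
      rw [← he] at h2 h3
      rw [abs_le]
      constructor <;> linarith
    rw [← mul_sub, abs_mul, abs_of_pos hPpos] at h1
    have h4 : |t - t'| ≤ 2 * e / (PP p c (k + 1) : ℝ) := by
      rw [le_div_iff₀ hPpos]
      linarith
    refine h4.trans (le_of_eq ?_)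
    rw [PP_succ hp]
    have h5 : (PP p c k : ℝ) = 2 ^ (c * (p k - p 0)) := by unfold PP; push_cast; rfl
    push_cast
    rw [h5, ← hN, one_div_pow]
    have : (2 : ℝ) ^ (c * (p k - p 0)) ≠ 0 := by positivity
    field_simp
  · -- lower bound
    have hdig : ∀ i < p k, seqOf p c t i = seqOf p c t' i := by
      intro i hi
      by_cases hir : i ∈ range p
      · obtain ⟨j, rfl⟩ := hir
        rw [seqOf_apply hp, seqOf_apply hp, hd j (hp.lt_iff_lt.1 hi)]
      · rw [seqOf_apply' t i hir, seqOf_apply' t' i hir]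
    have hpos : ∀ i, 0 < gauss^[i] (cod (seqOf p c t)) := by
      intro i
      rw [gauss_iter_cod hb]
      exact cod_pos (fun _ => hb _)
    have hpos' : ∀ i, 0 < gauss^[i] (cod (seqOf p c t')) := by
      intro i
      rw [gauss_iter_cod hb']
      exact cod_pos (fun _ => hb' _)
    rw [diff_iter (p k) (fun i _ => hpos i) (fun i _ => hpos' i) (fun i hi => by
      rw [gauss_iter_cod hb, gauss_iter_cod hb', dig_cod (fun _ => hb _), dig_cod (fun _ => hb' _)]
      simpa using hdig i hi)]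
    have hprod := prod_lower (c := c) hp
      (fun i => gauss^[i] (cod (seqOf p c t)) * gauss^[i] (cod (seqOf p c t')))
      (fun n hn => by
        have h1 := seqOf_lower' hp hc t n hn
        have h2 := seqOf_lower' hp hc t' n hn
        calc (1 / 2 : ℝ) ^ 4 ≤ (1 / 3) * (1 / 3) := by norm_num
          _ ≤ _ := mul_le_mul h1 h2 (by norm_num) (hpos n).le)
      (fun j => by
        have h1 := seqOf_lower hp hc t j
        have h2 := seqOf_lower hp hc t' j
        calc (1 / 2 : ℝ) ^ (2 + 2 * (c * (p (j + 1) - p j)))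
            = (1 / 2 : ℝ) ^ (1 + c * (p (j + 1) - p j)) *
              (1 / 2 : ℝ) ^ (1 + c * (p (j + 1) - p j)) := by
              rw [← pow_add]; congr 1; ring
          _ ≤ _ := mul_le_mul h1 h2 (by positivity) (hpos _).le) k
    have hlast : e / N * ((1 / 2 : ℝ) ^ (3 + c * (p (k + 1) - p k))) ≤
        |gauss^[p k] (cod (seqOf p c t)) - gauss^[p k] (cod (seqOf p c t'))| := by
      have l1 := seqOf_lower hp hc t k
      have l2 := seqOf_lower hp hc t' k
      rw [gauss_iter_cod hb] at l1 ⊢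
      rw [gauss_iter_cod hb'] at l2 ⊢
      have q1 := one_div_cod (b := fun i => seqOf p c t (i + p k)) (fun _ => hb _)
      have q2 := one_div_cod (b := fun i => seqOf p c t' (i + p k)) (fun _ => hb' _)
      have r1 := cod_mem (b := fun i => seqOf p c t (i + 1 + p k)) (fun _ => hb _)
      have r2 := cod_mem (b := fun i => seqOf p c t' (i + 1 + p k)) (fun _ => hb' _)
      have p1 := cod_pos (b := fun i => seqOf p c t (i + p k)) (fun _ => hb _)
      have p2 := cod_pos (b := fun i => seqOf p c t' (i + p k)) (fun _ => hb' _)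
      simp only [zero_add] at q1 q2
      rw [seqOf_apply hp] at q1 q2
      set u := cod (fun i => seqOf p c t (i + p k))
      set v := cod (fun i => seqOf p c t' (i + p k))
      set u' := cod (fun i => seqOf p c t (i + 1 + p k))
      set v' := cod (fun i => seqOf p c t' (i + 1 + p k))
      have s1 : |u - v| = u * v * |1 / u - 1 / v| := by
        have : u - v = u * v * (1 / v - 1 / u) := by field_simp
        rw [this, abs_mul, abs_of_pos (mul_pos p1 p2), abs_sub_comm]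
      have s2 : e / 2 ≤ |1 / u - 1 / v| := by
        rw [q1, q2]
        push_cast
        have h2 : e ≤ |(NN p c k : ℝ) + d1 + u' - ((NN p c k : ℝ) + d2 + v')| + |v' - u'| := by
          rw [he]
          calc |(d1 : ℝ) - d2| = |((NN p c k : ℝ) + d1 + u' - ((NN p c k : ℝ) + d2 + v')) +
                (v' - u')| := by congr 1; ring
            _ ≤ _ := abs_add_le _ _
        have h3 : |v' - u'| ≤ 1 / 2 := by
          rw [abs_le]; constructor <;> linarith [r1.1, r1.2, r2.1, r2.2]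
        linarith
      have s3 : (1 / 2 : ℝ) ^ (1 + c * (p (k + 1) - p k)) *
          (1 / 2 : ℝ) ^ (1 + c * (p (k + 1) - p k)) ≤ u * v :=
        mul_le_mul l1 l2 (by positivity) p1.le
      rw [s1]
      have hN2 : (1 / 2 : ℝ) ^ (c * (p (k + 1) - p k)) = 1 / N := by
        rw [hN]; unfold NN; push_cast; rw [one_div_pow]
      calc e / N * ((1 / 2 : ℝ) ^ (3 + c * (p (k + 1) - p k)))
          = ((1 / 2 : ℝ) ^ (1 + c * (p (k + 1) - p k)) *
            (1 / 2 : ℝ) ^ (1 + c * (p (k + 1) - p k))) * (e / 2) := by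
            rw [pow_add, pow_add, hN2]; ring
        _ ≤ u * v * |1 / u - 1 / v| := by
            apply mul_le_mul s3 s2 (by positivity) (by positivity)
    calc e / N * (1 / 2 : ℝ) ^ (3 + 4 * p k + 2 * k + 2 * (c * (p k - p 0)) +
            c * (p (k + 1) - p k))
        = (1 / 2 : ℝ) ^ (4 * p k + 2 * k + 2 * (c * (p k - p 0))) *
          (e / N * ((1 / 2 : ℝ) ^ (3 + c * (p (k + 1) - p k)))) := by
          rw [show 3 + 4 * p k + 2 * k + 2 * (c * (p k - p 0)) + c * (p (k + 1) - p k) =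
            (4 * p k + 2 * k + 2 * (c * (p k - p 0))) + (3 + c * (p (k + 1) - p k)) by ring,
            pow_add]
          ring
      _ ≤ _ := by
          apply mul_le_mul hprod hlast (by positivity)
          exact Finset.prod_nonneg fun i _ => mul_nonneg (hpos i).le (hpos' i).le

/-- Lower bound for the dimension of the coded set. -/
lemma le_dimH_coded (hp : StrictMono p) (hc : 1 ≤ c) {s : ℝ≥0} (hs0 : 0 < s) (hs1 : s ≤ 1)
    {C : ℝ} (hC : ∀ k : ℕ, (s : ℝ) * (3 + 4 * p k + 2 * k + 2 * (c * (p k - p 0)) +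
      c * (p (k + 1) - p k)) + 1 ≤ c * (p k - p 0) + C) :
    (s : ℝ≥0∞) ≤ dimH ((fun t => cod (seqOf p c t)) '' Ico (0 : ℝ) 1) := by
  have hC0 : ∀ t ∈ Ico (0 : ℝ) 1, ∀ t' ∈ Ico (0 : ℝ) 1,
      |t - t'| ≤ (2 : ℝ) ^ C * |cod (seqOf p c t) - cod (seqOf p c t')| ^ (s : ℝ) := by
    intro t ht t' ht'
    by_cases hne : t = t'
    · rw [hne, sub_self, abs_zero]
      positivity
    obtain ⟨k, ρ, h1, h2, h3, h4⟩ := separation hp hc ht ht' hne
    refine h3.trans ?_
    have h0 := hp.monotone (Nat.zero_le k)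
    have hlt : p k < p (k + 1) := hp (Nat.lt_succ_self k)
    have e1 : ((p k - p 0 : ℕ) : ℝ) = (p k : ℝ) - p 0 := by push_cast [h0]; rfl
    have e2 : ((p (k + 1) - p k : ℕ) : ℝ) = (p (k + 1) : ℝ) - p k := by push_cast [hlt.le]; rfl
    have g1 : (1 / 2 : ℝ) ^ (c * (p k - p 0)) = (2 : ℝ) ^ (-(c * ((p k : ℝ) - p 0))) := by
      rw [Real.rpow_neg (by norm_num), ← e1, ← Nat.cast_mul, Real.rpow_natCast, one_div, inv_pow]
    have g2 : (1 / 2 : ℝ) ^ (3 + 4 * p k + 2 * k + 2 * (c * (p k - p 0)) + c * (p (k + 1) - p k)) =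
        (2 : ℝ) ^ (-(3 + 4 * (p k : ℝ) + 2 * k + 2 * (c * ((p k : ℝ) - p 0)) +
          c * ((p (k + 1) : ℝ) - p k))) := by
      rw [Real.rpow_neg (by norm_num), ← e1, ← e2, one_div, inv_pow]
      congr 1
      rw [← Real.rpow_natCast]
      push_cast
      rfl
    have h5 : (ρ * (1 / 2 : ℝ) ^ (3 + 4 * p k + 2 * k + 2 * (c * (p k - p 0)) +
        c * (p (k + 1) - p k))) ^ (s : ℝ) ≤
        |cod (seqOf p c t) - cod (seqOf p c t')| ^ (s : ℝ) :=
      Real.rpow_le_rpow (by positivity) h4 s.coe_nonneg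
    have h6 : ρ ≤ ρ ^ (s : ℝ) := by
      calc ρ = ρ ^ (1 : ℝ) := (Real.rpow_one ρ).symm
        _ ≤ ρ ^ (s : ℝ) := Real.rpow_le_rpow_of_exponent_ge h1 h2 (by exact_mod_cast hs1)
    rw [Real.mul_rpow h1.le (by positivity), g2, ← Real.rpow_mul (by norm_num)] at h5
    calc 2 * ρ * (1 / 2 : ℝ) ^ (c * (p k - p 0))
        = ρ * ((2 : ℝ) ^ (1 : ℝ) * (2 : ℝ) ^ (-(c * ((p k : ℝ) - p 0)))) := by
          rw [g1, Real.rpow_one]; ring
      _ = ρ * (2 : ℝ) ^ (1 + -(c * ((p k : ℝ) - p 0))) := by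
          rw [← Real.rpow_add (by norm_num)]
      _ ≤ ρ ^ (s : ℝ) * (2 : ℝ) ^ (C + -(3 + 4 * (p k : ℝ) + 2 * k + 2 * (c * ((p k : ℝ) - p 0)) +
          c * ((p (k + 1) : ℝ) - p k)) * s) := by
          apply mul_le_mul h6 _ (by positivity) (by positivity)
          apply Real.rpow_le_rpow_of_exponent_le (by norm_num)
          have := hC k
          linarith
      _ = (2 : ℝ) ^ C * (ρ ^ (s : ℝ) * (2 : ℝ) ^ (-(3 + 4 * (p k : ℝ) + 2 * k +
          2 * (c * ((p k : ℝ) - p 0)) + c * ((p (k + 1) : ℝ) - p k)) * s)) := by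
          rw [Real.rpow_add (by norm_num)]; ring
      _ ≤ _ := by gcongr
  set y : ℝ → ℝ := fun t => cod (seqOf p c t) with hy
  have hinj : InjOn y (Ico (0 : ℝ) 1) := by
    intro t ht t' ht' h
    have := hC0 t ht t' ht'
    have h' : cod (seqOf p c t) = cod (seqOf p c t') := h
    rw [h', sub_self, abs_zero, Real.zero_rpow (by exact_mod_cast hs0.ne'), mul_zero] at this
    have h2 := abs_nonneg (t - t')
    have h3 : |t - t'| = 0 := le_antisymm this h2
    linarith [abs_eq_zero.1 h3]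
  have hleft : LeftInvOn (Function.invFunOn y (Ico (0 : ℝ) 1)) y (Ico (0 : ℝ) 1) :=
    hinj.leftInvOn_invFunOn
  have hhol : HolderOnWith (Real.toNNReal ((2 : ℝ) ^ C)) s
      (Function.invFunOn y (Ico (0 : ℝ) 1)) (y '' Ico (0 : ℝ) 1) := by
    rintro _ ⟨t, ht, rfl⟩ _ ⟨t', ht', rfl⟩
    rw [hleft ht, hleft ht', edist_dist, edist_dist, Real.dist_eq, Real.dist_eq,
      ENNReal.ofReal_rpow_of_nonneg (abs_nonneg _) s.coe_nonneg]
    change _ ≤ ENNReal.ofReal ((2 : ℝ) ^ C) * _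
    rw [← ENNReal.ofReal_mul (by positivity)]
    exact ENNReal.ofReal_le_ofReal (hC0 t ht t' ht')
  have h1 := hhol.dimH_image_le hs0
  have h2 : Function.invFunOn y (Ico (0 : ℝ) 1) '' (y '' Ico (0 : ℝ) 1) = Ico (0 : ℝ) 1 := by
    rw [← image_comp]
    exact (image_congr hleft).trans (image_id _)
  rw [h2] at h1
  have h3 : dimH (Ico (0 : ℝ) 1) = 1 := by
    rw [Real.dimH_of_nonempty_interior]
    · simp
    · rw [interior_Ico]; simp
  rw [h3, ENNReal.le_div_iff_mul_le (Or.inl (by exact_mod_cast hs0.ne'))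
    (Or.inl ENNReal.coe_ne_top), one_mul] at h1
  exact h1

end Construction

end Pool.Agent.Work.MP_bb898f_an
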