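import Mathlib
import Pool.Agent.Work.MP_bb898f_an.Basic

set_option autoImplicit false

open MeasureTheory Filter Topology Set
open scoped ENNReal NNReal

namespace Pool.Agent.Work.MP_bb898f_an

/-- Non-terminating points of `[0,1)` whose digits satisfy the constraints `D`. -/
def cylSet (D : ℕ → Set ℕ) : Set ℝ :=
  {y | y ∈ Ico (0 : ℝ) 1 ∧ (∀ n, 0 < gauss^[n] y) ∧ ∀ n, dig (gauss^[n] y) ∈ D n}

/-- The weight of a digit. -/
noncomputable def wt (s : ℝ) (A : Set ℕ) (b : ℕ) : ℝ≥0∞ :=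
  open Classical in if b ∈ A ∧ 1 ≤ b then ENNReal.ofReal ((b : ℝ) ^ (-(2 * s))) else 0

lemma ediam_cyl_le {D : ℕ → Set ℕ} {s : ℝ} (hs : 0 < s) (n : ℕ) (w : Fin n → ℕ) :
    Metric.ediam {y | y ∈ cylSet D ∧ ∀ i : Fin n, dig (gauss^[i] y) = w i} ^ s
      ≤ ∏ i : Fin n, wt s (D i) (w i) := by
  by_cases hw : ∀ i : Fin n, w i ∈ D i ∧ 1 ≤ w i
  · have h1 : ∏ i : Fin n, wt s (D i) (w i) =
        ENNReal.ofReal (∏ i : Fin n, (1 / (w i : ℝ)) ^ 2) ^ s := by
      rw [ENNReal.ofReal_rpow_of_nonneg (by positivity) hs.le,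
        ← Real.finsetProd_rpow _ _ (fun i _ => by positivity),
        ENNReal.ofReal_prod_of_nonneg (fun i _ => by positivity)]
      apply Finset.prod_congr rfl
      intro i _
      unfold wt
      rw [if_pos (hw i)]
      congr 1
      have hwi : (0 : ℝ) < w i := by exact_mod_cast (hw i).2
      rw [one_div, inv_pow, Real.inv_rpow (by positivity), ← Real.rpow_natCast, 
        ← Real.rpow_mul hwi.le, Real.rpow_neg hwi.le]
      norm_num
    rw [h1]
    apply ENNReal.rpow_le_rpow _ hs.le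
    apply Metric.ediam_le
    intro y hy y' hy'
    rw [edist_dist]
    apply ENNReal.ofReal_le_ofReal
    rw [Real.dist_eq, diff_iter n (fun i _ => hy.1.2.1 i) (fun i _ => hy'.1.2.1 i)
      (fun i hi => by
        have a := hy.2 ⟨i, hi⟩
        have b := hy'.2 ⟨i, hi⟩
        simp only at a b
        rw [a, b])]
    have hA : |gauss^[n] y - gauss^[n] y'| ≤ 1 := by
      have a := gauss_iter_mem hy.1.1 n
      have b := gauss_iter_mem hy'.1.1 n
      rw [abs_le]; constructor <;> linarith [a.1, a.2, b.1, b.2]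
    have hB : (∏ i ∈ Finset.range n, (gauss^[i] y * gauss^[i] y')) ≤
        ∏ i : Fin n, (1 / (w i : ℝ)) ^ 2 := by
      rw [← Fin.prod_univ_eq_prod_range (fun i => gauss^[i] y * gauss^[i] y') n]
      apply Finset.prod_le_prod
      · intro i _
        exact mul_nonneg (hy.1.2.1 i).le (hy'.1.2.1 i).le
      · intro i _
        rw [pow_two]
        have a := le_inv_dig (hy.1.2.1 i) (gauss_iter_mem hy.1.1 i).2
        have b := le_inv_dig (hy'.1.2.1 i) (gauss_iter_mem hy'.1.1 i).2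
        rw [hy.2 i] at a
        rw [hy'.2 i] at b
        exact mul_le_mul a b (hy'.1.2.1 i).le (by positivity)
    calc _ ≤ (∏ i : Fin n, (1 / (w i : ℝ)) ^ 2) * 1 := by
          apply mul_le_mul hB hA (abs_nonneg _) (by positivity)
      _ = _ := mul_one _
  · have : {y | y ∈ cylSet D ∧ ∀ i : Fin n, dig (gauss^[i] y) = w i} = ∅ := by
      apply eq_empty_of_forall_notMem
      rintro y ⟨hy, hy2⟩
      apply hw
      intro i
      rw [← hy2 i]
      exact ⟨hy.2.2 i, one_le_dig (hy.2.1 i) (gauss_iter_mem hy.1 i).2⟩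
    rw [this, Metric.ediam_empty, ENNReal.zero_rpow_of_pos hs]
    exact zero_le

lemma cylSet_subset_iUnion (D : ℕ → Set ℕ) (n : ℕ) :
    cylSet D ⊆ ⋃ w : Fin n → ℕ, {y | y ∈ cylSet D ∧ ∀ i : Fin n, dig (gauss^[i] y) = w i} := by
  intro y hy
  exact mem_iUnion.2 ⟨fun i => dig (gauss^[i] y), hy, fun i => rfl⟩

/-- If the product of weights tends to zero along a subsequence, the measure vanishes. -/
lemma hausdorffMeasure_cylSet_zero {D : ℕ → Set ℕ} {s : ℝ} (hs : 0 < s)
    (h : ∀ ε : ℝ≥0∞, 0 < ε → ∃ n : ℕ, ∏ i : Fin n, ∑' b, wt s (D i) b ≤ ε) :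
    Measure.hausdorffMeasure s (cylSet D) = 0 := by
  apply hausdorffMeasure_zero_of_covers hs
  intro ε hε
  obtain ⟨n, hn⟩ := h ε hε
  refine ⟨Fin n → ℕ, inferInstance, _, cylSet_subset_iUnion D n, ?_⟩
  refine le_trans (ENNReal.tsum_le_tsum fun w => ediam_cyl_le hs n w) ?_
  rw [tsum_words_prod n (fun i b => wt s (D i) b)]
  exact hn

lemma tsum_wt_singleton_le (s : ℝ) (hs : 0 < s) (c : ℕ) : ∑' b, wt s {c} b ≤ 1 := by
  rw [tsum_eq_single c]
  · unfold wt
    split_ifs with h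
    · rw [ENNReal.ofReal_le_one]
      apply Real.rpow_le_one_of_one_le_of_nonpos
      · exact_mod_cast h.2
      · linarith
    · exact zero_le
  · intro b hb
    unfold wt
    rw [if_neg]
    rintro ⟨h, -⟩
    exact hb h

lemma exists_tail_wt_le {s : ℝ} (hs : 1 / 2 < s) :
    ∃ M : ℕ, 1 ≤ M ∧ ∑' b, wt s {b | M ≤ b} b ≤ 1 / 2 := by
  have h1 : Summable (fun b : ℕ => (b : ℝ) ^ (-(2 * s))) := by
    rw [Real.summable_nat_rpow]; linarith
  have h2 : ∑' b : ℕ, ENNReal.ofReal ((b : ℝ) ^ (-(2 * s))) ≠ ∞ := by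
    rw [← ENNReal.ofReal_tsum_of_nonneg (fun b => by positivity) h1]
    exact ENNReal.ofReal_ne_top
  have h3 := ENNReal.tendsto_tsum_compl_atTop_zero h2
  obtain ⟨F, hF⟩ := ((tendsto_order.1 h3).2 (1 / 2) (by simp)).exists
  refine ⟨F.sup id + 1, by omega, le_trans ?_ hF.le⟩
  refine le_trans ?_
    (tsum_subtype {b | b ∉ F} (fun b : ℕ => ENNReal.ofReal ((b : ℝ) ^ (-(2 * s))))).ge
  apply ENNReal.tsum_le_tsum
  intro b
  unfold wt
  split_ifs with h
  · rw [indicator_of_mem]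
    intro hb
    have := Finset.le_sup (f := id) hb
    simp only [id] at this
    have h' : F.sup id + 1 ≤ b := h.1
    omega
  · exact zero_le

lemma cylSet_countable {D : ℕ → Set ℕ} (N : ℕ) (h : ∀ n, N ≤ n → (D n).Subsingleton) :
    (cylSet D).Countable := by
  apply (countable_iUnion (fun w : Fin N → ℕ => ?_)).mono (cylSet_subset_iUnion D N)
  apply Set.Subsingleton.countable
  intro y hy y' hy'
  apply eq_of_dig_eq hy.1.1 hy'.1.1 hy.1.2.1 hy'.1.2.1
  intro i
  by_cases hi : i < N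
  · have a := hy.2 ⟨i, hi⟩
    have b := hy'.2 ⟨i, hi⟩
    simp only at a b
    rw [a, b]
  · exact h i (by omega) (hy.1.2.2 i) (hy'.1.2.2 i)

/-- The modified constraints: the first `m` digits are given by `w`. -/
def preD (D : ℕ → Set ℕ) (m : ℕ) (w : Fin m → ℕ) : ℕ → Set ℕ :=
  fun n => if h : n < m then {w ⟨n, h⟩} else D n

lemma subset_iUnion_preD {E : Set ℝ} (D : ℕ → Set ℕ)
    (hE : ∀ y ∈ E, y ∈ Ico (0 : ℝ) 1 ∧ ((∀ n, 0 < gauss^[n] y) →
      ∀ᶠ n in atTop, dig (gauss^[n] y) ∈ D n)) :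
    E ⊆ {y : ℝ | ∃ n, gauss^[n] y = 0} ∪
      ⋃ p : (Σ m : ℕ, (Fin m → ℕ)), cylSet (preD D p.1 p.2) := by
  intro y hy
  obtain ⟨h1, h2⟩ := hE y hy
  by_cases hnt : ∀ n, 0 < gauss^[n] y
  · right
    obtain ⟨m, hm⟩ := eventually_atTop.1 (h2 hnt)
    refine mem_iUnion.2 ⟨⟨m, fun i => dig (gauss^[i] y)⟩, h1, hnt, ?_⟩
    intro n
    unfold preD
    split_ifs with h
    · rfl
    · exact hm n (not_lt.1 h)
  · left
    push Not at hnt
    obtain ⟨n, hn⟩ := hnt
    exact ⟨n, le_antisymm hn (gauss_iter_mem h1 n).1⟩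

lemma dimH_le_of_preD {E : Set ℝ} (D : ℕ → Set ℕ)
    (hE : ∀ y ∈ E, y ∈ Ico (0 : ℝ) 1 ∧ ((∀ n, 0 < gauss^[n] y) →
      ∀ᶠ n in atTop, dig (gauss^[n] y) ∈ D n)) {d : ℝ≥0∞}
    (hd : ∀ (m : ℕ) (w : Fin m → ℕ), dimH (cylSet (preD D m w)) ≤ d) : dimH E ≤ d := by
  refine (dimH_mono (subset_iUnion_preD D hE)).trans ?_
  rw [dimH_union, dimH_iUnion, dimH_countable countable_terminating]
  apply max_le zero_le
  exact iSup_le fun p => hd p.1 p.2

theorem dimH_asympSet_le_half (x : ℝ) : dimH (asympSet x) ≤ 1 / 2 := by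
  apply le_of_forall_gt_imp_ge_of_dense
  intro d hd
  rcases eq_or_ne d ⊤ with rfl | hdt
  · exact le_top
  lift d to ℝ≥0 using hdt
  have hs : (1 / 2 : ℝ) < d := by
    have h1 : (1 / 2 : ℝ≥0∞) = ((1 / 2 : ℝ≥0) : ℝ≥0∞) := by
      rw [ENNReal.coe_div (by norm_num)]; simp
    rw [h1] at hd
    have := ENNReal.coe_lt_coe.1 hd
    have h2 : ((1 / 2 : ℝ≥0) : ℝ) < (d : ℝ) := NNReal.coe_lt_coe.2 this
    simpa using h2
  obtain ⟨M, hM1, hM⟩ := exists_tail_wt_le hs
  classical
  let D : ℕ → Set ℕ := fun n => if 1 / ((M : ℝ) + 1) < gauss^[n] x then {dig (gauss^[n] x)}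
    else {b | M ≤ b}
  have hE : ∀ y ∈ asympSet x, y ∈ Ico (0 : ℝ) 1 ∧ ((∀ n, 0 < gauss^[n] y) →
      ∀ᶠ n in atTop, dig (gauss^[n] y) ∈ D n) := by
    rintro y ⟨hy, hlim⟩
    refine ⟨hy, fun hnt => ?_⟩
    have e1 := eventually_dig_eq hlim (K := (M : ℝ) + 1) (by linarith [Nat.cast_nonneg (α := ℝ) M])
    have e2 := eventually_dig_large hlim hM1
    filter_upwards [e1, e2] with n h1 h2
    simp only [D]
    split_ifs with h
    · exact (h1 h).2
    · exact h2 (not_lt.1 h) (hnt n)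
  apply dimH_le_of_preD D hE
  intro m w
  by_cases hfin : {n | gauss^[n] x ≤ 1 / ((M : ℝ) + 1)}.Finite
  · obtain ⟨N, hN⟩ := hfin.bddAbove
    have : (cylSet (preD D m w)).Countable := by
      apply cylSet_countable (max m (N + 1))
      intro n hn
      have h1 : ¬ n < m := by
        have := le_max_left m (N + 1); omega
      have h2 : N < n := by
        have := le_max_right m (N + 1); omega
      unfold preD
      rw [dif_neg h1]
      simp only [D]
      rw [if_pos]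
      · exact subsingleton_singleton
      · by_contra hcon
        have := hN (show n ∈ {n | gauss^[n] x ≤ 1 / ((M : ℝ) + 1)} from not_lt.1 hcon)
        omega
    rw [dimH_countable this]
    exact zero_le
  · apply dimH_le_of_hausdorffMeasure_ne_top
    rw [hausdorffMeasure_cylSet_zero (by linarith)]
    · exact ENNReal.zero_ne_top
    intro ε hε
    have hinf : ({n | gauss^[n] x ≤ 1 / ((M : ℝ) + 1)} ∩ {n | m ≤ n}).Infinite := by
      intro hf
      apply hfin
      apply (hf.union (finite_lt_nat m)).subset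
      intro n hn
      by_cases h : m ≤ n
      · exact Or.inl ⟨hn, h⟩
      · exact Or.inr (not_le.1 h)
    have hpow : Tendsto (fun j : ℕ => (1 / 2 : ℝ≥0∞) ^ j) atTop (𝓝 0) :=
      ENNReal.tendsto_pow_atTop_nhds_zero_of_lt_one (by norm_num)
    obtain ⟨j, hj⟩ := ((tendsto_order.1 hpow).2 ε hε).exists
    obtain ⟨T, hT, hTc⟩ := hinf.exists_subset_card_eq j
    refine ⟨T.sup id + 1, ?_⟩
    have hle1 : ∀ i, ∑' b, wt d (preD D m w i) b ≤ 1 := by
      intro i
      unfold preD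
      split_ifs with h
      · exact tsum_wt_singleton_le _ (by linarith) _
      · simp only [D]
        split_ifs with h'
        · exact tsum_wt_singleton_le _ (by linarith) _
        · exact hM.trans (by norm_num)
    have hlehalf : ∀ i ∈ T, ∑' b, wt d (preD D m w i) b ≤ 1 / 2 := by
      intro i hi
      have := hT hi
      unfold preD
      rw [dif_neg (not_lt.2 this.2)]
      simp only [D]
      rw [if_neg (not_lt.2 this.1)]
      exact hM
    rw [Fin.prod_univ_eq_prod_range (fun i => ∑' b, wt d (preD D m w i) b)]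
    have hsub : T ⊆ Finset.range (T.sup id + 1) := by
      intro i hi
      have := Finset.le_sup (f := id) hi
      simp only [id] at this
      exact Finset.mem_range.2 (by omega)
    calc _ ≤ ∏ i ∈ T, ∑' b, wt d (preD D m w i) b :=
          Finset.prod_le_prod_of_subset_of_le_one' hsub (fun i _ _ => hle1 i)
      _ ≤ ∏ i ∈ T, (1 / 2 : ℝ≥0∞) := Finset.prod_le_prod' hlehalf
      _ = (1 / 2) ^ j := by rw [Finset.prod_const, hTc]
      _ ≤ ε := hj.le

end Pool.Agent.Work.MP_bb898f_an
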