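import Mathlib
import Pool.Agent.Work.MP_bb898f_an.Upper
import Pool.Agent.Work.MP_bb898f_an.Lower

set_option autoImplicit false

open MeasureTheory Filter Topology Set
open scoped ENNReal NNReal

namespace Pool.Agent.Work.MP_bb898f_an

/-- The free positions. -/
noncomputable def pos (A : ℝ) (k : ℕ) : ℕ := ⌈A ^ k⌉₊ + k ^ 2

lemma pos_strictMono {A : ℝ} (hA : 1 ≤ A) : StrictMono (pos A) := by
  apply strictMono_nat_of_lt_succ
  intro k
  unfold pos
  have h1 : ⌈A ^ k⌉₊ ≤ ⌈A ^ (k + 1)⌉₊ := Nat.ceil_mono (pow_le_pow_right₀ hA (Nat.le_succ k))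
  have h2 : k ^ 2 < (k + 1) ^ 2 := Nat.pow_lt_pow_left (Nat.lt_succ_self k) two_ne_zero
  omega

/-- The digits of the special point. -/
noncomputable def xseq (A : ℝ) : ℕ → ℕ := Function.extend (pos A) (fun k => k + 3) (fun _ => 2)

lemma xseq_pos {A : ℝ} (hA : 1 ≤ A) (k : ℕ) : xseq A (pos A k) = k + 3 := by
  unfold xseq
  exact (pos_strictMono hA).injective.extend_apply _ _ _

lemma xseq_of_notMem {A : ℝ} (n : ℕ) (hn : n ∉ range (pos A)) : xseq A n = 2 := by
  unfold xseq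
  rw [Function.extend_apply']
  rintro ⟨k, hk⟩
  exact hn ⟨k, hk⟩

lemma two_le_xseq {A : ℝ} (hA : 1 ≤ A) (n : ℕ) : 2 ≤ xseq A n := by
  by_cases hn : n ∈ range (pos A)
  · obtain ⟨k, rfl⟩ := hn
    rw [xseq_pos hA]; omega
  · rw [xseq_of_notMem n hn]

/-- The special point. -/
noncomputable def xpt (A : ℝ) : ℝ := cod (xseq A)

lemma coded_subset {A : ℝ} (hA : 1 ≤ A) {c : ℕ} (hc : 1 ≤ c) :
    (fun t => cod (seqOf (pos A) c t)) '' Ico (0 : ℝ) 1 ⊆ asympSet (xpt A) := by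
  rintro _ ⟨t, -, rfl⟩
  have hp := pos_strictMono hA
  apply cod_mem_asympSet _ _ (two_le_xseq hA) (two_le_seqOf hp hc t)
  intro K
  filter_upwards [eventually_ge_atTop (pos A K)] with n hn
  by_cases hn2 : n ∈ range (pos A)
  · obtain ⟨k, rfl⟩ := hn2
    have hk : K ≤ k := hp.le_iff_le.1 hn
    right
    rw [xseq_pos hA, seqOf_apply hp]
    refine ⟨by omega, ?_⟩
    have h1 : k ≤ NN (pos A) c k := by
      unfold NN
      have h2 : k ≤ c * (pos A (k + 1) - pos A k) := by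
        have h3 : k ≤ pos A (k + 1) - pos A k := by
          unfold pos
          have h1 : ⌈A ^ k⌉₊ ≤ ⌈A ^ (k + 1)⌉₊ :=
            Nat.ceil_mono (pow_le_pow_right₀ hA (Nat.le_succ k))
          have h2 : (k + 1) ^ 2 = k ^ 2 + 2 * k + 1 := by ring
          omega
        calc k ≤ 1 * (pos A (k + 1) - pos A k) := by omega
          _ ≤ _ := Nat.mul_le_mul_right _ hc
      exact h2.trans (Nat.lt_two_pow_self).le
    omega
  · left
    rw [xseq_of_notMem n hn2, seqOf_apply' t n hn2]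

lemma pos_cast_ge (A : ℝ) (k : ℕ) : A ^ k + (k : ℝ) ^ 2 ≤ pos A k := by
  unfold pos
  push_cast
  linarith [Nat.le_ceil (A ^ k)]

lemma pos_cast_le {A : ℝ} (hA : 1 ≤ A) (k : ℕ) : (pos A k : ℝ) ≤ A ^ k + 1 + (k : ℝ) ^ 2 := by
  unfold pos
  push_cast
  have := Nat.ceil_lt_add_one (show 0 ≤ A ^ k by positivity)
  linarith

lemma pos_asymp {A : ℝ} (hA : 1 ≤ A) {ε : ℝ} (hε : 0 < ε) :
    ∀ᶠ k : ℕ in atTop, (pos A (k + 1) : ℝ) ≤ (A + ε) * pos A k ∧ (k : ℝ) ≤ ε * pos A k ∧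
      1 ≤ ε * pos A k := by
  obtain ⟨K, hK⟩ := exists_nat_gt (4 / ε + 1)
  have hK1 : 4 / ε < K := by linarith
  have hK0 : 1 < (K : ℝ) := by
    have : 0 < 4 / ε := by positivity
    linarith
  filter_upwards [eventually_ge_atTop K] with k hk
  have hk' : (K : ℝ) ≤ k := by exact_mod_cast hk
  have h1 : 4 < ε * k := by
    have : 4 / ε < k := by linarith
    rw [div_lt_iff₀ hε] at this
    linarith
  have h2 := pos_cast_ge A k
  have h3 := pos_cast_le hA (k + 1)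
  have hAk : 0 < A ^ k := by positivity
  have hk1 : 1 < (k : ℝ) := by linarith
  push_cast at h3
  have h4 : 4 * (k : ℝ) ≤ ε * (k : ℝ) ^ 2 := by nlinarith
  refine ⟨?_, ?_, ?_⟩
  · calc (pos A (k + 1) : ℝ) ≤ A ^ (k + 1) + 1 + ((k : ℝ) + 1) ^ 2 := h3
      _ ≤ (A + ε) * (A ^ k + (k : ℝ) ^ 2) := by
        have : A * (k : ℝ) ^ 2 ≥ 1 * (k : ℝ) ^ 2 := by gcongr
        have h5 : 0 ≤ ε * A ^ k := by positivity
        rw [pow_succ]
        nlinarith
      _ ≤ _ := by gcongr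
  · calc (k : ℝ) ≤ ε * (k : ℝ) ^ 2 := by nlinarith
      _ ≤ ε * pos A k := by
        gcongr
        linarith
  · calc (1 : ℝ) ≤ ε * (k : ℝ) ^ 2 := by nlinarith
      _ ≤ ε * pos A k := by
        gcongr
        linarith

lemma exists_bound_of_eventually {f : ℕ → ℝ} (h : ∀ᶠ k in atTop, f k ≤ 0) :
    ∃ C : ℝ, ∀ k, f k ≤ C := by
  obtain ⟨N, hN⟩ := eventually_atTop.1 h
  refine ⟨∑ i ∈ Finset.range N, |f i|, fun k => ?_⟩
  by_cases hk : k < N
  · exact (le_abs_self _).trans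
      (Finset.single_le_sum (f := fun i => |f i|) (fun _ _ => abs_nonneg _) (Finset.mem_range.2 hk))
  · exact (hN k (by omega)).trans (Finset.sum_nonneg fun _ _ => abs_nonneg _)

theorem le_dimH_asympSet {A : ℝ} (hA : 1 ≤ A) {s : ℝ≥0} (hs0 : 0 < s)
    (hs : (s : ℝ) * (1 + A) < 1) : (s : ℝ≥0∞) ≤ dimH (asympSet (xpt A)) := by
  have hs1 : s ≤ 1 := by
    have h0 : (0 : ℝ) < s := by exact_mod_cast hs0
    have : (s : ℝ) ≤ 1 := by nlinarith
    exact_mod_cast this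
  have hs0' : (0 : ℝ) < s := by exact_mod_cast hs0
  set g : ℝ := 1 - s * (1 + A) with hg
  have hgpos : 0 < g := by rw [hg]; linarith
  obtain ⟨c, hc⟩ := exists_nat_gt ((4 * s + 1) / g)
  have hc' : 4 * s + 1 < c * g := by rwa [div_lt_iff₀ hgpos] at hc
  have hc1 : 1 ≤ c := by
    have : (0 : ℝ) < c := lt_trans (by positivity) hc
    exact_mod_cast this
  have hc1' : (1 : ℝ) ≤ c := by exact_mod_cast hc1
  set ε : ℝ := 1 / (5 * s + c * s + 1 + c * pos A 0) with hε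
  have hεpos : 0 < ε := by positivity
  have hε1 : ε * (5 * s + c * s + 1 + c * pos A 0) = 1 := by
    rw [hε]; field_simp
  have hbound : ∃ C : ℝ, ∀ k : ℕ, (s : ℝ) * (3 + 4 * pos A k + 2 * k +
      2 * (c * (pos A k - pos A 0)) + c * (pos A (k + 1) - pos A k)) + 1 -
      c * (pos A k - pos A 0) ≤ C := by
    apply exists_bound_of_eventually
    filter_upwards [pos_asymp hA hεpos] with k hk
    obtain ⟨h1, h2, h3⟩ := hk
    set P : ℝ := ((pos A k : ℕ) : ℝ) with hP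
    set P' : ℝ := ((pos A (k + 1) : ℕ) : ℝ) with hP'
    set P0 : ℝ := ((pos A 0 : ℕ) : ℝ) with hP0
    have hPpos : 0 ≤ P := by rw [hP]; positivity
    have hP0pos : 0 ≤ P0 := by rw [hP0]; positivity
    have e1 : (s : ℝ) * (3 + 4 * P + 2 * k + 2 * (c * (P - P0)) + c * (P' - P)) ≤
        s * (3 * (ε * P) + 4 * P + 2 * (ε * P) + c * (P + (A + ε) * P)) := by
      apply mul_le_mul_of_nonneg_left _ hs0'.le
      have : (c : ℝ) * P' ≤ c * ((A + ε) * P) := by gcongr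
      have h5 : 0 ≤ (c : ℝ) * P0 := by positivity
      nlinarith
    have e2 : (c : ℝ) * P0 ≤ c * P0 * (ε * P) := by
      have : 0 ≤ (c : ℝ) * P0 := by positivity
      nlinarith
    have e3 : s * (3 * (ε * P) + 4 * P + 2 * (ε * P) + c * (P + (A + ε) * P)) + ε * P +
        c * P0 * (ε * P) = P * (4 * s + c * (s * (1 + A))) +
          P * (ε * (5 * s + c * s + 1 + c * P0)) := by ring
    have e4 : s * (1 + A) = 1 - g := by rw [hg]; ring
    rw [hε1, e4] at e3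
    have e5 : P * (4 * s + c * (1 - g)) + P * 1 ≤ P * c := by
      rw [← mul_add]
      apply mul_le_mul_of_nonneg_left _ hPpos
      linarith
    linarith
  obtain ⟨C, hC⟩ := hbound
  refine le_trans (le_dimH_coded (pos_strictMono hA) hc1 hs0 hs1 (C := C) ?_)
    (dimH_mono (coded_subset hA hc1))
  intro k
  have := hC k
  linarith

end Pool.Agent.Work.MP_bb898f_an
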