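import Mathlib
import Pool.Agent.Work.MP_bb898f_an.Special

set_option autoImplicit false

open MeasureTheory Filter Topology Set
open scoped ENNReal NNReal

namespace Pool.Agent.Work.MP_bb898f_an

/-- Weight with exponent `e`. -/
noncomputable def we (e : ℝ) (B : Set ℕ) (b : ℕ) : ℝ≥0∞ :=
  open Classical in if b ∈ B ∧ 1 ≤ b then ENNReal.ofReal ((b : ℝ) ^ (-e)) else 0

lemma tsum_we_singleton_le {e : ℝ} (he : 0 ≤ e) (c : ℕ) : ∑' b, we e {c} b ≤ 1 := by
  rw [tsum_eq_single c]
  · unfold we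
    split_ifs with h
    · rw [ENNReal.ofReal_le_one]
      apply Real.rpow_le_one_of_one_le_of_nonpos
      · exact_mod_cast h.2
      · linarith
    · exact zero_le
  · intro b hb
    unfold we
    rw [if_neg]
    rintro ⟨h, -⟩
    exact hb h

lemma tsum_we_two {e : ℝ} : ∑' b, we e {2} b ≤ ENNReal.ofReal ((2 : ℝ) ^ (-e)) := by
  rw [tsum_eq_single 2]
  · unfold we
    split_ifs with h
    · simp
    · exact zero_le
  · intro b hb
    unfold we
    rw [if_neg]
    rintro ⟨h, -⟩
    exact hb h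

lemma exists_tsum_we_le {e : ℝ} (he : 1 < e) :
    ∃ C : ℝ, 1 ≤ C ∧ ∀ B : Set ℕ, ∑' b, we e B b ≤ ENNReal.ofReal C := by
  have h1 : Summable (fun b : ℕ => (b : ℝ) ^ (-e)) := by
    rw [Real.summable_nat_rpow]; linarith
  refine ⟨max 1 (∑' b : ℕ, (b : ℝ) ^ (-e)), le_max_left _ _, fun B => ?_⟩
  calc ∑' b, we e B b ≤ ∑' b : ℕ, ENNReal.ofReal ((b : ℝ) ^ (-e)) := by
        apply ENNReal.tsum_le_tsum
        intro b
        unfold we
        split_ifs
        · exact le_rfl
        · exact zero_le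
    _ = ENNReal.ofReal (∑' b : ℕ, (b : ℝ) ^ (-e)) :=
        (ENNReal.ofReal_tsum_of_nonneg (fun b => by positivity) h1).symm
    _ ≤ _ := ENNReal.ofReal_le_ofReal (le_max_right _ _)

lemma ediam_le_real {D : ℕ → Set ℕ} (n : ℕ) (w : Fin n → ℕ) {T : Set ℝ}
    (hT : T ⊆ {y | y ∈ cylSet D ∧ ∀ i : Fin n, dig (gauss^[i] y) = w i}) {δ : ℝ}
    (hδ : ∀ y ∈ T, ∀ y' ∈ T, |gauss^[n] y - gauss^[n] y'| ≤ δ) :
    Metric.ediam T ≤ ENNReal.ofReal ((∏ i : Fin n, (1 / (w i : ℝ)) ^ 2) * δ) := by
  apply Metric.ediam_le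
  intro y hy1 y' hy1'
  have hy := hT hy1
  have hy' := hT hy1'
  rw [edist_dist]
  apply ENNReal.ofReal_le_ofReal
  rw [Real.dist_eq, diff_iter n (fun i _ => hy.1.2.1 i) (fun i _ => hy'.1.2.1 i)
    (fun i hi => by
      have a := hy.2 ⟨i, hi⟩
      have b := hy'.2 ⟨i, hi⟩
      simp only at a b
      rw [a, b])]
  have hB : (∏ i ∈ Finset.range n, (gauss^[i] y * gauss^[i] y')) ≤
      ∏ i : Fin n, (1 / (w i : ℝ)) ^ 2 := by
    rw [← Fin.prod_univ_eq_prod_range (fun i => gauss^[i] y * gauss^[i] y') n]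
    apply Finset.prod_le_prod
    · intro i _
      exact mul_nonneg (hy.1.2.1 i).le (hy'.1.2.1 i).le
    · intro i _
      rw [pow_two]
      have a := le_inv_dig (hy.1.2.1 i) (gauss_iter_mem hy.1.1 i).2
      have b := le_inv_dig (hy'.1.2.1 i) (gauss_iter_mem hy'.1.1 i).2
      rw [hy.2 i] at a
      rw [hy'.2 i] at b
      exact mul_le_mul a b (hy'.1.2.1 i).le (by positivity)
  exact mul_le_mul hB (hδ y hy1 y' hy1') (abs_nonneg _) (by positivity)

section

variable {p : ℕ → ℕ} (hp : StrictMono p)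

include hp

lemma card_filter_range (k : ℕ) [DecidablePred (· ∈ range p)] :
    ((Finset.range (p k)).filter (· ∈ range p)).card = k := by
  have : (Finset.range (p k)).filter (· ∈ range p) = (Finset.range k).image p := by
    ext i
    simp only [Finset.mem_filter, Finset.mem_range, Finset.mem_image, mem_range]
    constructor
    · rintro ⟨h, j, rfl⟩
      exact ⟨j, hp.lt_iff_lt.1 h, rfl⟩
    · rintro ⟨j, hj, rfl⟩
      exact ⟨hp hj, j, rfl⟩
  rw [this, Finset.card_image_of_injective _ hp.injective, Finset.card_range]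

/-- Product bound. -/
lemma prod_bound {f : ℕ → ℝ≥0∞} {C q : ℝ≥0∞} (hq : q ≤ 1) (hC : 1 ≤ C) (m : ℕ)
    (hf1 : ∀ i, i < m → f i ≤ 1) (hf2 : ∀ i, m ≤ i → i ∈ range p → f i ≤ C)
    (hf3 : ∀ i, m ≤ i → i ∉ range p → f i ≤ q) (k : ℕ) :
    (∏ i ∈ Finset.range (p k), f i) * q ^ (k + m) ≤ C ^ k * q ^ (p k) := by
  classical
  have h1 : ∀ i, f i * (if i ∈ range p then q else 1) * (if i < m then q else 1) ≤
      (if i ∈ range p then C else 1) * q := by
    intro i
    by_cases him : i < m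
    · rw [if_pos him]
      by_cases hir : i ∈ range p
      · rw [if_pos hir, if_pos hir]
        calc f i * q * q ≤ 1 * 1 * q := by
              gcongr
              exact hf1 i him
          _ ≤ C * q := by gcongr; simpa using hC
      · rw [if_neg hir, if_neg hir]
        calc f i * 1 * q ≤ 1 * 1 * q := by
              gcongr
              exact hf1 i him
          _ = 1 * q := by ring
    · rw [if_neg him]
      by_cases hir : i ∈ range p
      · rw [if_pos hir, if_pos hir, mul_one]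
        gcongr
        exact hf2 i (not_lt.1 him) hir
      · rw [if_neg hir, if_neg hir, mul_one, mul_one, one_mul]
        exact hf3 i (not_lt.1 him) hir
  have h2 := Finset.prod_le_prod' (s := Finset.range (p k)) (fun i _ => h1 i)
  rw [Finset.prod_mul_distrib, Finset.prod_mul_distrib, Finset.prod_mul_distrib,
    Finset.prod_ite, Finset.prod_ite, Finset.prod_ite] at h2
  simp only [Finset.prod_const, one_pow, mul_one, card_filter_range hp,
    Finset.card_range] at h2
  refine le_trans ?_ h2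
  rw [pow_add, ← mul_assoc]
  refine mul_le_mul' le_rfl ?_
  refine pow_le_pow_of_le_one zero_le hq ?_
  calc ((Finset.range (p k)).filter (· < m)).card ≤ (Finset.range m).card := by
        apply Finset.card_le_card
        intro i hi
        rw [Finset.mem_filter] at hi
        exact Finset.mem_range.2 hi.2
    _ = m := Finset.card_range m

end

/-- The constraint set of the special point. -/
noncomputable def DD (p : ℕ → ℕ) (n : ℕ) : Set ℕ :=
  open Classical in if n ∈ range p then univ else {2}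

/-- exponents -/
noncomputable def expo (p : ℕ → ℕ) (α β : ℝ) (n : ℕ) : ℝ :=
  open Classical in if n ∈ range p then α else β

/-- Product of the free digits before position `n`. -/
noncomputable def freeProd (p : ℕ → ℕ) (n : ℕ) (y : ℝ) : ℝ :=
  open Classical in ∏ i ∈ Finset.range n, if i ∈ range p then (dig (gauss^[i] y) : ℝ) else 1

lemma one_le_freeProd (p : ℕ → ℕ) (n : ℕ) {y : ℝ} (hy : y ∈ Ico (0 : ℝ) 1)
    (hnt : ∀ n, 0 < gauss^[n] y) : 1 ≤ freeProd p n y := by
  classical
  unfold freeProd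
  induction n with
  | zero => simp
  | succ n ih =>
    rw [Finset.prod_range_succ]
    have : (1 : ℝ) ≤ if n ∈ range p then (dig (gauss^[n] y) : ℝ) else 1 := by
      split_ifs
      · exact_mod_cast one_le_dig (hnt n) (gauss_iter_mem hy n).2
      · exact le_rfl
    exact one_le_mul_of_one_le_of_one_le ih this

lemma freeProd_succ {p : ℕ → ℕ} (hp : StrictMono p) (k : ℕ) (y : ℝ) :
    freeProd p (p (k + 1)) y = freeProd p (p k) y * dig (gauss^[p k] y) := by
  classical
  have hlt : p k < p (k + 1) := hp (Nat.lt_succ_self k)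
  unfold freeProd
  rw [← Finset.prod_range_mul_prod_Ico _ hlt.le, Finset.prod_eq_prod_Ico_succ_bot hlt,
    if_pos (mem_range_self k)]
  congr 1
  rw [Finset.prod_eq_one, mul_one]
  intro i hi
  rw [if_neg]
  rintro ⟨j, rfl⟩
  rw [Finset.mem_Ico] at hi
  have a1 : p k < p j := by omega
  have a2 := hp.lt_iff_lt.1 a1
  have a3 := hp.lt_iff_lt.1 hi.2
  omega

/-- The growth dichotomy. -/
lemma growth_dichotomy {p : ℕ → ℕ} (hp : StrictMono p) {y : ℝ} (hy : y ∈ Ico (0 : ℝ) 1)
    (hnt : ∀ n, 0 < gauss^[n] y) {θ a : ℝ} (hθ : 0 ≤ θ) (ha : 1 + θ < a) :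
    {k | freeProd p (p k) y ≤ Real.exp (a ^ k)}.Infinite ∨
    {k | freeProd p (p k) y ^ θ ≤ dig (gauss^[p k] y)}.Infinite := by
  by_contra hcon
  push Not at hcon
  obtain ⟨h1, h2⟩ := hcon
  have hev : ∀ᶠ k in atTop, Real.exp (a ^ k) < freeProd p (p k) y ∧
      (dig (gauss^[p k] y) : ℝ) < freeProd p (p k) y ^ θ := by
    have e1 := h1.eventually_cofinite_notMem
    have e2 := h2.eventually_cofinite_notMem
    rw [Nat.cofinite_eq_atTop] at e1 e2
    filter_upwards [e1, e2] with k k1 k2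
    exact ⟨not_le.1 k1, not_le.1 k2⟩
  obtain ⟨K, hK⟩ := eventually_atTop.1 hev
  set u : ℕ → ℝ := fun k => Real.log (freeProd p (p k) y) with hu
  have hpos : ∀ k, 0 < freeProd p (p k) y := fun k =>
    lt_of_lt_of_le one_pos (one_le_freeProd p (p k) hy hnt)
  have hstep : ∀ k, K ≤ k → u (k + 1) ≤ (1 + θ) * u k := by
    intro k hk
    simp only [hu]
    rw [freeProd_succ hp]
    have hdig : (0 : ℝ) < dig (gauss^[p k] y) := by
      exact_mod_cast one_le_dig (hnt (p k)) (gauss_iter_mem hy (p k)).2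
    rw [Real.log_mul (hpos k).ne' hdig.ne']
    have := Real.log_le_log hdig (hK k hk).2.le
    rw [Real.log_rpow (hpos k)] at this
    linarith
  have hlow : ∀ k, K ≤ k → a ^ k < u k := by
    intro k hk
    simp only [hu]
    rw [Real.lt_log_iff_exp_lt (hpos k)]
    exact (hK k hk).1
  have hiter : ∀ j, u (K + j) ≤ (1 + θ) ^ j * u K := by
    intro j
    induction j with
    | zero => simp
    | succ j ih =>
      calc u (K + (j + 1)) ≤ (1 + θ) * u (K + j) := hstep (K + j) (by omega)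
        _ ≤ (1 + θ) * ((1 + θ) ^ j * u K) := by gcongr
        _ = _ := by ring
  have hθ1 : 0 < 1 + θ := by linarith
  have ha0 : 0 < a := by linarith
  have hratio : 1 < a / (1 + θ) := by rwa [one_lt_div hθ1]
  obtain ⟨j, hj⟩ := pow_unbounded_of_one_lt (u K / a ^ K) hratio
  have h3 := hlow (K + j) (by omega)
  have h4 := hiter j
  have h5 : a ^ (K + j) < (1 + θ) ^ j * u K := lt_of_lt_of_le h3 h4
  rw [div_pow, div_lt_div_iff₀ (by positivity) (by positivity)] at hj
  rw [pow_add] at h5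
  linarith

lemma we_prod_eq {D : ℕ → Set ℕ} {n : ℕ} {w : Fin n → ℕ} (hw : ∀ i : Fin n, w i ∈ D i ∧ 1 ≤ w i)
    (e : ℕ → ℝ) : ∏ i : Fin n, we (e i) (D i) (w i) =
      ENNReal.ofReal (∏ i : Fin n, (w i : ℝ) ^ (-(e i))) := by
  rw [ENNReal.ofReal_prod_of_nonneg (fun i _ => by positivity)]
  apply Finset.prod_congr rfl
  intro i _
  unfold we
  rw [if_pos (hw i)]

/-- sets of the first kind -/
def T1 (p : ℕ → ℕ) (D : ℕ → Set ℕ) (θ : ℝ) (j : Σ k : ℕ, (Fin (p k) → ℕ)) : Set ℝ :=
  {y | (y ∈ cylSet D ∧ ∀ i : Fin (p j.1), dig (gauss^[i] y) = j.2 i) ∧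
    freeProd p (p j.1) y ^ θ ≤ dig (gauss^[p j.1] y)}

/-- sets of the second kind -/
def T2 (p : ℕ → ℕ) (D : ℕ → Set ℕ) (a : ℝ) (j : Σ k : ℕ, (Fin (p k) → ℕ)) : Set ℝ :=
  {y | (y ∈ cylSet D ∧ ∀ i : Fin (p j.1), dig (gauss^[i] y) = j.2 i) ∧
    freeProd p (p j.1) y ≤ Real.exp (a ^ j.1)}

open Classical in
lemma freeProd_word {p : ℕ → ℕ} {D : ℕ → Set ℕ} {n : ℕ} {w : Fin n → ℕ} {y : ℝ}
    (hy : y ∈ cylSet D ∧ ∀ i : Fin n, dig (gauss^[i] y) = w i) :
    freeProd p n y = ∏ i : Fin n, if (i : ℕ) ∈ range p then (w i : ℝ) else 1 := by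
  unfold freeProd
  rw [← Fin.prod_univ_eq_prod_range
    (fun i => if i ∈ range p then (dig (gauss^[i] y) : ℝ) else 1)]
  apply Finset.prod_congr rfl
  intro i _
  rw [hy.2 i]

lemma empty_of_bad_word {D : ℕ → Set ℕ} {n : ℕ} {w : Fin n → ℕ} 
    (hw : ¬ ∀ i : Fin n, w i ∈ D i ∧ 1 ≤ w i) :
    {y | y ∈ cylSet D ∧ ∀ i : Fin n, dig (gauss^[i] y) = w i} = ∅ := by
  apply eq_empty_of_forall_notMem
  rintro y ⟨hy, hy2⟩
  apply hw
  intro i
  rw [← hy2 i]
  exact ⟨hy.2.2 i, one_le_dig (hy.2.1 i) (gauss_iter_mem hy.1 i).2⟩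

lemma ediam_T1_le {p : ℕ → ℕ} {D : ℕ → Set ℕ} {s θ : ℝ} (hs : 0 < s)
    (j : Σ k : ℕ, (Fin (p k) → ℕ)) : Metric.ediam (T1 p D θ j) ^ s ≤
      ∏ i : Fin (p j.1), we (expo p ((2 + θ) * s) (2 * s) i) (D i) (j.2 i) := by
  classical
  obtain ⟨k, w⟩ := j
  by_cases hw : ∀ i : Fin (p k), w i ∈ D i ∧ 1 ≤ w i
  · rw [we_prod_eq hw]
    set P : ℝ := ∏ i : Fin (p k), if (i : ℕ) ∈ range p then (w i : ℝ) else 1 with hP
    have hwpos : ∀ i, (0 : ℝ) < w i := fun i => by exact_mod_cast (hw i).2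
    have hPpos : 0 < P := by
      apply Finset.prod_pos
      intro i _
      split_ifs
      · exact hwpos i
      · exact one_pos
    have h1 := ediam_le_real (D := D) (p k) w (T := T1 p D θ ⟨k, w⟩) (δ := P ^ (-θ))
      (fun y hy => hy.1) (by
        intro y hy y' hy'
        have hb : ∀ z ∈ T1 p D θ ⟨k, w⟩, 0 < gauss^[p k] z ∧ gauss^[p k] z ≤ P ^ (-θ) := by
          intro z hz
          refine ⟨hz.1.1.2.1 _, ?_⟩
          have e1 := le_inv_dig (hz.1.1.2.1 (p k)) (gauss_iter_mem hz.1.1.1 (p k)).2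
          have e2 := hz.2
          rw [freeProd_word hz.1] at e2
          refine e1.trans ?_
          rw [Real.rpow_neg hPpos.le, ← one_div]
          exact one_div_le_one_div_of_le (Real.rpow_pos_of_pos hPpos _) e2
        have a1 := hb y hy
        have a2 := hb y' hy'
        rw [abs_le]
        constructor <;> linarith [a1.1, a1.2, a2.1, a2.2])
    refine (ENNReal.rpow_le_rpow h1 hs.le).trans ?_
    rw [ENNReal.ofReal_rpow_of_nonneg (by positivity) hs.le]
    apply ENNReal.ofReal_le_ofReal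
    apply le_of_eq
    rw [hP, ← Real.finsetProd_rpow _ _ (fun i _ => by positivity), ← Finset.prod_mul_distrib,
      ← Real.finsetProd_rpow _ _ (fun i _ => by positivity)]
    apply Finset.prod_congr rfl
    intro i _
    have hwi := hwpos i
    have e3 : (1 / (w i : ℝ)) ^ 2 = (w i : ℝ) ^ (-2 : ℝ) := by
      rw [Real.rpow_neg hwi.le, one_div, inv_pow]
      norm_num
    unfold expo
    rw [e3]
    split_ifs with h
    · rw [← Real.rpow_add hwi, ← Real.rpow_mul hwi.le]
      congr 1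
      ring
    · rw [Real.one_rpow, mul_one, ← Real.rpow_mul hwi.le]
      congr 1
      ring
  · have : T1 p D θ ⟨k, w⟩ = ∅ := by
      apply subset_empty_iff.1
      rw [← empty_of_bad_word hw]
      intro y hy
      exact hy.1
    rw [this, Metric.ediam_empty, ENNReal.zero_rpow_of_pos hs]
    exact zero_le

lemma ediam_T2_le {p : ℕ → ℕ} {D : ℕ → Set ℕ} {s a : ℝ} (hs : 0 < s)
    (j : Σ k : ℕ, (Fin (p k) → ℕ)) : Metric.ediam (T2 p D a j) ^ s ≤
      ENNReal.ofReal (Real.exp (a ^ j.1) ^ 2) *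
      ∏ i : Fin (p j.1), we (expo p 2 (2 * s) i) (D i) (j.2 i) := by
  classical
  obtain ⟨k, w⟩ := j
  by_cases hne : (T2 p D a ⟨k, w⟩).Nonempty
  · obtain ⟨z, hz⟩ := hne
    have hw : ∀ i : Fin (p k), w i ∈ D i ∧ 1 ≤ w i := by
      by_contra hw
      have := empty_of_bad_word hw
      have hz' : z ∈ (∅ : Set ℝ) := by rw [← this]; exact hz.1
      exact hz'
    simp only
    rw [we_prod_eq hw]
    set P : ℝ := ∏ i : Fin (p k), if (i : ℕ) ∈ range p then (w i : ℝ) else 1 with hP
    have hwpos : ∀ i, (0 : ℝ) < w i := fun i => by exact_mod_cast (hw i).2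
    have hwone : ∀ i, (1 : ℝ) ≤ w i := fun i => by exact_mod_cast (hw i).2
    have hPpos : 0 < P := by
      apply Finset.prod_pos
      intro i _
      split_ifs
      · exact hwpos i
      · exact one_pos
    have hPle : P ≤ Real.exp (a ^ k) := by
      have e2 := hz.2
      rwa [freeProd_word hz.1] at e2
    have h1 := ediam_le_real (D := D) (p k) w (T := T2 p D a ⟨k, w⟩) (δ := 1)
      (fun y hy => hy.1) (by
        intro y hy y' hy'
        have a := gauss_iter_mem hy.1.1.1 (p k)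
        have b := gauss_iter_mem hy'.1.1.1 (p k)
        rw [abs_le]; constructor <;> linarith [a.1, a.2, b.1, b.2])
    refine (ENNReal.rpow_le_rpow h1 hs.le).trans ?_
    rw [ENNReal.ofReal_rpow_of_nonneg (by positivity) hs.le, ← ENNReal.ofReal_mul (by positivity)]
    apply ENNReal.ofReal_le_ofReal
    rw [mul_one, ← Real.finsetProd_rpow _ _ (fun i _ => by positivity)]
    calc ∏ i : Fin (p k), ((1 / (w i : ℝ)) ^ 2) ^ s
        ≤ ∏ i : Fin (p k), ((if (i : ℕ) ∈ range p then (w i : ℝ) else 1) ^ 2 *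
            (w i : ℝ) ^ (-(expo p 2 (2 * s) i))) := by
          apply Finset.prod_le_prod (fun i _ => by positivity)
          intro i _
          have hwi := hwpos i
          have hwi1 := hwone i
          have e3 : (1 / (w i : ℝ)) ^ 2 = (w i : ℝ) ^ (-2 : ℝ) := by
            rw [Real.rpow_neg hwi.le, one_div, inv_pow]
            norm_num
          unfold expo
          rw [e3, ← Real.rpow_mul hwi.le]
          split_ifs with h
          · rw [← Real.rpow_natCast, ← Real.rpow_add hwi]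
            calc (w i : ℝ) ^ (-2 * s) ≤ 1 := by
                  apply Real.rpow_le_one_of_one_le_of_nonpos hwi1
                  linarith
              _ = (w i : ℝ) ^ (((2 : ℕ) : ℝ) + -2) := by norm_num
          · rw [one_pow, one_mul]
            apply le_of_eq
            congr 1
            ring
      _ = P ^ 2 * ∏ i : Fin (p k), (w i : ℝ) ^ (-(expo p 2 (2 * s) i)) := by
          rw [Finset.prod_mul_distrib, Finset.prod_pow]
      _ ≤ _ := by gcongr
  · rw [not_nonempty_iff_eq_empty.1 hne, Metric.ediam_empty, ENNReal.zero_rpow_of_pos hs]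
    exact zero_le

end Pool.Agent.Work.MP_bb898f_an
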