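import Mathlib
import Pool.Agent.Work.MP_bb898f_an.SpecialUpper

set_option autoImplicit false

open MeasureTheory Filter Topology Set
open scoped ENNReal NNReal

namespace Pool.Agent.Work.MP_bb898f_an

lemma summable_z {A a κ L : ℝ} (ha : 0 < a) (haA : a < A) (hκ : 0 < κ) (m : ℕ) :
    Summable (fun k : ℕ => Real.exp (2 * a ^ k + k * L - κ * pos A k + κ * (k + m))) := by
  have hg : Summable (fun k : ℕ => Real.exp (κ * m) * (Real.exp (-1)) ^ k) := by
    apply Summable.mul_left
    apply summable_geometric_of_lt_one (Real.exp_pos _).le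
    rw [Real.exp_lt_one_iff]
    norm_num
  refine Summable.of_norm_bounded_eventually_nat hg ?_
  have hr : 1 < A / a := by rwa [one_lt_div ha]
  have e1 := (tendsto_pow_atTop_atTop_of_one_lt hr).eventually_ge_atTop (2 / κ)
  have e2 := (tendsto_natCast_atTop_atTop (R := ℝ)).eventually_ge_atTop ((L + κ + 1) / κ)
  filter_upwards [e1, e2] with k h1 h2
  rw [Real.norm_of_nonneg (Real.exp_pos _).le, ← Real.exp_nat_mul, ← Real.exp_add,
    Real.exp_le_exp]
  have h3 := pos_cast_ge A k
  have h4 : 2 * a ^ k ≤ κ * A ^ k := by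
    rw [div_pow, div_le_div_iff₀ hκ (by positivity)] at h1
    linarith
  have h5 : (k : ℝ) * (L + κ + 1) ≤ κ * (k : ℝ) ^ 2 := by
    rw [div_le_iff₀ hκ] at h2
    have : (0 : ℝ) ≤ k := Nat.cast_nonneg k
    nlinarith
  have h6 : κ * (A ^ k + (k : ℝ) ^ 2) ≤ κ * pos A k := by gcongr
  linarith

lemma tsum_ne_top {A : ℝ} (hA : 1 ≤ A) {a : ℝ} (ha : 0 < a) (haA : a < A) {α β : ℝ} (hα : 1 < α)
    (hβ : 0 < β) (m : ℕ) (w : Fin m → ℕ) :
    ∑' j : (Σ k : ℕ, (Fin (pos A k) → ℕ)), ENNReal.ofReal (Real.exp (a ^ j.1) ^ 2) *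
      ∏ i : Fin (pos A j.1), we (expo (pos A) α β i) (preD (DD (pos A)) m w i) (j.2 i) ≠ ∞ := by
  classical
  have hp := pos_strictMono hA
  obtain ⟨Cr, hCr1, hCr⟩ := exists_tsum_we_le hα
  set qr : ℝ := (2 : ℝ) ^ (-β) with hqr
  have hqr0 : 0 < qr := by positivity
  have hqr1 : qr ≤ 1 := Real.rpow_le_one_of_one_le_of_nonpos (by norm_num) (by linarith)
  rw [ENNReal.tsum_sigma' (f := fun j : (Σ k : ℕ, (Fin (pos A k) → ℕ)) =>
    ENNReal.ofReal (Real.exp (a ^ j.1) ^ 2) *
      ∏ i : Fin (pos A j.1), we (expo (pos A) α β i) (preD (DD (pos A)) m w i) (j.2 i))]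
  simp only
  simp_rw [ENNReal.tsum_mul_left]
  have hexpo : ∀ i, 0 ≤ expo (pos A) α β i := by
    intro i
    unfold expo
    split_ifs <;> linarith
  set κ : ℝ := β * Real.log 2 with hκ
  have hκpos : 0 < κ := mul_pos hβ (Real.log_pos (by norm_num))
  have hlogq : Real.log qr = -κ := by
    rw [hqr, Real.log_rpow (by norm_num)]; ring
  have hterm : ∀ k : ℕ, ENNReal.ofReal (Real.exp (a ^ k) ^ 2) *
      ∑' w' : Fin (pos A k) → ℕ,
        ∏ i : Fin (pos A k), we (expo (pos A) α β i) (preD (DD (pos A)) m w i) (w' i) ≤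
      ENNReal.ofReal (Real.exp (2 * a ^ k + k * Real.log Cr - κ * pos A k + κ * (k + m))) := by
    intro k
    rw [tsum_words_prod (pos A k) (fun i b => we (expo (pos A) α β i)
      (preD (DD (pos A)) m w i) b)]
    rw [Fin.prod_univ_eq_prod_range (fun i => ∑' b, we (expo (pos A) α β i)
      (preD (DD (pos A)) m w i) b)]
    have hb := prod_bound hp (f := fun i => ∑' b, we (expo (pos A) α β i)
      (preD (DD (pos A)) m w i) b) (C := ENNReal.ofReal Cr) (q := ENNReal.ofReal qr)
      (by rw [ENNReal.ofReal_le_one]; exact hqr1)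
      (by rw [ENNReal.one_le_ofReal]; exact hCr1) m
      (fun i hi => by
        unfold preD
        rw [dif_pos hi]
        exact tsum_we_singleton_le (hexpo i) _)
      (fun i hi hir => by
        have : expo (pos A) α β i = α := by unfold expo; rw [if_pos hir]
        rw [this]
        exact hCr _)
      (fun i hi hir => by
        have h1 : expo (pos A) α β i = β := by unfold expo; rw [if_neg hir]
        have h2 : preD (DD (pos A)) m w i = {2} := by
          unfold preD
          rw [dif_neg (not_lt.2 hi)]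
          unfold DD
          rw [if_neg hir]
        rw [h1, h2]
        exact tsum_we_two)
      k
    rw [← ENNReal.ofReal_pow hqr0.le, ← ENNReal.ofReal_pow hqr0.le,
      ← ENNReal.ofReal_pow (by linarith), ← ENNReal.ofReal_mul (by positivity)] at hb
    have hb2 : ∏ i ∈ Finset.range (pos A k), ∑' b, we (expo (pos A) α β i)
        (preD (DD (pos A)) m w i) b ≤ ENNReal.ofReal (Cr ^ k * qr ^ (pos A k) / qr ^ (k + m)) := by
      rw [ENNReal.ofReal_div_of_pos (by positivity), ENNReal.le_div_iff_mul_le]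
      · exact hb
      · left
        simp only [ne_eq, ENNReal.ofReal_eq_zero, not_le]
        positivity
      · left
        exact ENNReal.ofReal_ne_top
    calc _ ≤ ENNReal.ofReal (Real.exp (a ^ k) ^ 2) *
          ENNReal.ofReal (Cr ^ k * qr ^ (pos A k) / qr ^ (k + m)) := by gcongr
      _ = ENNReal.ofReal (Real.exp (a ^ k) ^ 2 * (Cr ^ k * qr ^ (pos A k) / qr ^ (k + m))) := by
          rw [← ENNReal.ofReal_mul (by positivity)]
      _ = _ := by
          congr 1
          have hC0 : 0 < Cr := by linarith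
          have e1 : Cr ^ k = Real.exp (k * Real.log Cr) := by
            rw [Real.exp_nat_mul, Real.exp_log hC0]
          have e2 : ∀ n : ℕ, qr ^ n = Real.exp (n * (-κ)) := by
            intro n
            rw [Real.exp_nat_mul, ← hlogq, Real.exp_log hqr0]
          rw [e1, e2, e2, ← Real.exp_nat_mul, ← Real.exp_add, ← Real.exp_sub, ← Real.exp_add]
          congr 1
          push_cast
          ring
  have hsum := summable_z (L := Real.log Cr) ha haA hκpos m
  refine ne_top_of_le_ne_top ?_ (ENNReal.tsum_le_tsum hterm)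
  rw [← ENNReal.ofReal_tsum_of_nonneg (fun k => (Real.exp_pos _).le) hsum]
  exact ENNReal.ofReal_ne_top

theorem dimH_asympSet_le {A : ℝ} (hA : 1 < A) {s : ℝ≥0} (hs : 1 < (s : ℝ) * (1 + A)) :
    dimH (asympSet (xpt A)) ≤ s := by
  classical
  have hp := pos_strictMono hA.le
  have hs0 : (0 : ℝ) < s := by
    by_contra h
    have : (s : ℝ) = 0 := le_antisymm (not_lt.1 h) s.coe_nonneg
    rw [this] at hs
    linarith
  -- choose `θ` and `a`
  obtain ⟨θ, hθ0, hθ1, hθ2⟩ : ∃ θ : ℝ, 0 ≤ θ ∧ 1 < (2 + θ) * s ∧ 1 + θ < A := by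
    have h1 : max 0 (1 / (s : ℝ) - 2) < A - 1 := by
      apply max_lt
      · linarith
      · rw [sub_lt_iff_lt_add, div_lt_iff₀ hs0]
        linarith
    obtain ⟨θ, hθ1, hθ2⟩ := exists_between h1
    refine ⟨θ, (le_max_left _ _).trans hθ1.le, ?_, by linarith⟩
    have := lt_of_le_of_lt (le_max_right _ _) hθ1
    rw [sub_lt_iff_lt_add, div_lt_iff₀ hs0] at this
    linarith
  obtain ⟨a, ha1, ha2⟩ := exists_between hθ2
  have ha0 : 0 < a := by linarith
  have hb := two_le_xseq hA.le
  have hE : ∀ y ∈ asympSet (xpt A), y ∈ Ico (0 : ℝ) 1 ∧ ((∀ n, 0 < gauss^[n] y) →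
      ∀ᶠ n in atTop, dig (gauss^[n] y) ∈ DD (pos A) n) := by
    rintro y ⟨hy, hlim⟩
    refine ⟨hy, fun hnt => ?_⟩
    have e1 := eventually_dig_eq hlim (K := 3) (by norm_num)
    filter_upwards [e1] with n h1
    unfold DD
    split_ifs with h
    · exact mem_univ _
    · have h2 : xseq A n = 2 := xseq_of_notMem n h
      unfold xpt at h1
      rw [gauss_iter_cod hb, dig_cod (fun _ => hb _)] at h1
      simp only [zero_add] at h1
      rw [h2] at h1
      apply (h1 _).2
      rw [cod_eq (fun _ => hb _)]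
      have h3 := cod_mem (b := fun i => xseq A (i + 1 + n)) (fun _ => hb _)
      simp only [zero_add]
      rw [h2]
      apply one_div_lt_one_div_of_lt
      · push_cast; linarith [h3.1]
      · push_cast; linarith [h3.2]
  apply dimH_le_of_preD (DD (pos A)) hE
  intro m w
  set D := preD (DD (pos A)) m w with hD
  have hsub : cylSet D ⊆
      {y | y ∈ cylSet D ∧ {k | freeProd (pos A) (pos A k) y ≤ Real.exp (a ^ k)}.Infinite} ∪
      {y | y ∈ cylSet D ∧ {k | freeProd (pos A) (pos A k) y ^ θ ≤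
        dig (gauss^[pos A k] y)}.Infinite} := by
    intro y hy
    rcases growth_dichotomy hp hy.1 hy.2.1 hθ0 ha1 with h | h
    · exact Or.inl ⟨hy, h⟩
    · exact Or.inr ⟨hy, h⟩
  refine (dimH_mono hsub).trans ?_
  rw [dimH_union]
  have hinf : ∀ (y : ℝ) (hy : y ∈ cylSet D) (Q : ℕ → Prop) (hQ : {k | Q k}.Infinite),
      ((fun k : ℕ => (⟨k, fun i => dig (gauss^[i] y)⟩ : Σ k : ℕ, (Fin (pos A k) → ℕ))) ''
        {k | Q k}).Infinite := by
    intro y _ Q hQ
    apply hQ.image
    intro k _ k' _ h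
    exact congrArg Sigma.fst h
  apply max_le
  · apply dimH_le_of_hausdorffMeasure_ne_top
    rw [hausdorffMeasure_limsup_zero hs0 (T2 (pos A) D a)]
    · exact ENNReal.zero_ne_top
    · refine ne_top_of_le_ne_top ?_ (ENNReal.tsum_le_tsum fun j => ediam_T2_le hs0 j)
      exact tsum_ne_top hA.le ha0 ha2 (by norm_num) (by linarith) m w
    · rintro y ⟨hy, hinfy⟩
      apply (hinf y hy _ hinfy).mono
      rintro _ ⟨k, hk, rfl⟩
      exact ⟨⟨hy, fun i => rfl⟩, hk⟩
  · apply dimH_le_of_hausdorffMeasure_ne_top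
    rw [hausdorffMeasure_limsup_zero hs0 (T1 (pos A) D θ)]
    · exact ENNReal.zero_ne_top
    · refine ne_top_of_le_ne_top ?_ (ENNReal.tsum_le_tsum fun j => (ediam_T1_le hs0 j).trans
        (?_ : _ ≤ ENNReal.ofReal (Real.exp (a ^ j.1) ^ 2) *
      ∏ i : Fin (pos A j.1), we (expo (pos A) ((2 + θ) * s) (2 * s) i) (D i) (j.2 i)))
      · exact tsum_ne_top hA.le ha0 ha2 hθ1 (by linarith) m w
      · have : (1 : ℝ≥0∞) ≤ ENNReal.ofReal (Real.exp (a ^ j.1) ^ 2) := by
          rw [ENNReal.one_le_ofReal]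
          apply one_le_pow₀
          rw [Real.one_le_exp_iff]
          positivity
        exact le_mul_of_one_le_left zero_le this
    · rintro y ⟨hy, hinfy⟩
      apply (hinf y hy _ hinfy).mono
      rintro _ ⟨k, hk, rfl⟩
      exact ⟨⟨hy, fun i => rfl⟩, hk⟩

/-- The case `α = 0`. -/
lemma dimH_asympSet_const : dimH (asympSet (cod (fun _ => 2))) = 0 := by
  have hb : ∀ i : ℕ, 2 ≤ (fun _ : ℕ => 2) i := fun _ => le_rfl
  have hE : ∀ y ∈ asympSet (cod (fun _ => 2)), y ∈ Ico (0 : ℝ) 1 ∧ ((∀ n, 0 < gauss^[n] y) →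
      ∀ᶠ n in atTop, dig (gauss^[n] y) ∈ (fun _ : ℕ => ({2} : Set ℕ)) n) := by
    rintro y ⟨hy, hlim⟩
    refine ⟨hy, fun hnt => ?_⟩
    have e1 := eventually_dig_eq hlim (K := 3) (by norm_num)
    filter_upwards [e1] with n h1
    rw [gauss_iter_cod hb, dig_cod hb] at h1
    have h3 := cod_mem hb
    have h4 : 1 / 3 < cod (fun _ => 2) := by
      rw [cod_eq hb]
      apply one_div_lt_one_div_of_lt
      · push_cast; linarith [h3.1]
      · push_cast; linarith [h3.2]
    exact (h1 h4).2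
  apply le_antisymm _ zero_le
  apply dimH_le_of_preD _ hE
  intro m w
  rw [dimH_countable]
  apply cylSet_countable m
  intro n hn
  unfold preD
  rw [dif_neg (not_lt.2 hn)]
  exact subsingleton_singleton

lemma dimH_asympSet_xpt {A : ℝ} (hA : 1 ≤ A) :
    dimH (asympSet (xpt A)) = ENNReal.ofReal (1 / (1 + A)) := by
  have hA1 : 0 < 1 + A := by linarith
  apply le_antisymm
  · rcases hA.eq_or_lt with h | h
    · rw [← h]
      refine (dimH_asympSet_le_half _).trans (le_of_eq ?_)
      rw [show (1 : ℝ) + 1 = 2 by norm_num, ENNReal.ofReal_div_of_pos (by norm_num)]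
      simp
    · apply le_of_forall_gt_imp_ge_of_dense
      intro d hd
      rcases eq_or_ne d ⊤ with rfl | hdt
      · exact le_top
      lift d to ℝ≥0 using hdt
      apply dimH_asympSet_le h
      have h1 : 1 / (1 + A) < d := by
        rw [← ENNReal.ofReal_coe_nnreal] at hd
        exact (ENNReal.ofReal_lt_ofReal_iff_of_nonneg (by positivity)).1 hd
      rw [div_lt_iff₀ hA1] at h1
      exact h1
  · apply le_of_forall_lt_imp_le_of_dense
    intro d hd
    have hdt : d ≠ ⊤ := (hd.trans ENNReal.ofReal_lt_top).ne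
    lift d to ℝ≥0 using hdt
    rcases eq_or_ne d 0 with rfl | hd0
    · simp
    apply le_dimH_asympSet hA (pos_iff_ne_zero.2 hd0)
    have h1 : (d : ℝ) < 1 / (1 + A) := by
      rw [← ENNReal.ofReal_coe_nnreal] at hd
      exact (ENNReal.ofReal_lt_ofReal_iff_of_nonneg d.coe_nonneg).1 hd
    rw [lt_div_iff₀ hA1] at h1
    exact h1

theorem image_dimH_asympSet :
    (fun x => dimH (asympSet x)) '' Ico (0 : ℝ) 1 = Icc (0 : ℝ≥0∞) (1 / 2) := by
  apply Subset.antisymm
  · rintro _ ⟨x, -, rfl⟩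
    exact ⟨zero_le, dimH_asympSet_le_half x⟩
  · intro α hα
    have hαt : α ≠ ⊤ := by
      intro h
      rw [h] at hα
      have := hα.2
      simp at this
    lift α to ℝ≥0 using hαt
    rcases eq_or_ne α 0 with rfl | hα0
    · exact ⟨cod (fun _ => 2), cod_mem_Ico (fun _ => le_rfl), by simpa using dimH_asympSet_const⟩
    have hαpos : (0 : ℝ) < α := by exact_mod_cast pos_iff_ne_zero.2 hα0
    have hα2 : (α : ℝ) ≤ 1 / 2 := by
      have h := hα.2
      have h1 : (1 / 2 : ℝ≥0∞) = ((1 / 2 : ℝ≥0) : ℝ≥0∞) := by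
        rw [ENNReal.coe_div (by norm_num)]; simp
      rw [h1] at h
      have := ENNReal.coe_le_coe.1 h
      have h2 : (α : ℝ) ≤ ((1 / 2 : ℝ≥0) : ℝ) := NNReal.coe_le_coe.2 this
      simpa using h2
    have hA : (1 : ℝ) ≤ 1 / α - 1 := by
      have : 2 ≤ 1 / (α : ℝ) := by
        rw [le_div_iff₀ hαpos]; linarith
      linarith
    refine ⟨xpt (1 / α - 1), cod_mem_Ico (two_le_xseq hA), ?_⟩
    simp only
    rw [dimH_asympSet_xpt hA]
    rw [show (1 : ℝ) + (1 / α - 1) = 1 / α by ring, one_div_one_div, ENNReal.ofReal_coe_nnreal]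

end Pool.Agent.Work.MP_bb898f_an
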